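import Mathlib

/-! # MP_836e4b_nt : traced Rankin-Cohen brackets of Eisenstein series, definitions -/

open Finset

namespace MP836e4b

/-- The Jacobi symbol character `x ↦ (x / m)` modulo `m`. -/
noncomputable def chi (m : ℕ) [NeZero m] : DirichletCharacter ℂ m where
  toFun x := ((jacobiSym (x.val : ℤ) m : ℤ) : ℂ)
  map_one' := by
    rcases Nat.lt_or_ge 1 m with h | h
    · have : Fact (1 < m) := ⟨h⟩
      rw [ZMod.val_one]
      simp
    · have h1 : m = 1 := le_antisymm h (Nat.one_le_iff_ne_zero.mpr (NeZero.ne m))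
      subst h1
      simp
  map_mul' x y := by
    rw [ZMod.val_mul, ← Int.cast_mul, ← jacobiSym.mul_left]
    congr 1
    rw [jacobiSym.mod_left ((x.val : ℤ) * (y.val : ℤ)) m]
    push_cast
    rfl
  map_nonunit' x hx := by
    have h : ¬ Nat.Coprime x.val m := by
      intro h
      apply hx
      have := (ZMod.isUnit_iff_coprime x.val m).mpr h
      rwa [ZMod.natCast_zmod_val] at this
    have : jacobiSym (x.val : ℤ) m = 0 := by
      rw [jacobiSym.eq_zero_iff_not_coprime]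
      intro h2
      apply h
      rw [Nat.Coprime, ← h2]
      rfl
    rw [this, Int.cast_zero]

/-- `L(s, (·/m))`, the analytically continued Dirichlet `L`-function of the Jacobi symbol. -/
noncomputable def Lval (m : ℕ) (s : ℂ) : ℂ :=
  if h : m = 0 then 0 else
    haveI : NeZero m := ⟨h⟩
    DirichletCharacter.LFunction (chi m) s

/-- `σ_{k-1,φ,ψ}(n)` with `φ = (·/D₁)` and `ψ = (·/D₂)`. -/
noncomputable def sig (k D₁ D₂ n : ℕ) : ℂ :=
  if n = 0 then - (Lval D₁ (1 - k) * Lval D₂ 0)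
  else ∑ p ∈ n.divisorsAntidiagonal,
    ((jacobiSym (p.1 : ℤ) D₁ : ℤ) : ℂ) * ((jacobiSym (p.2 : ℤ) D₂ : ℤ) : ℂ) * (p.1 : ℂ) ^ (k - 1)

/-- `c_e(a₁,a₂)`. -/
def ce (k e a b : ℕ) : ℤ :=
  ∑ r ∈ range (e + 1), (-1) ^ r * (a : ℤ) ^ r * (b : ℤ) ^ (e - r) *
    ((e + k - 1).choose (e - r) : ℤ) * ((e + k - 1).choose r : ℤ)

/-- `a_{D,k,e}(n)`. -/
noncomputable def aCoeff (D k e n : ℕ) : ℂ :=
  ∑ d ∈ D.divisorsAntidiagonal, ((jacobiSym (-1) d.2 : ℤ) : ℂ) * ((d.2 : ℂ) ^ e)⁻¹ *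
    ∑ p ∈ antidiagonal (n * d.2), sig k d.1 d.2 p.1 * sig k d.1 d.2 p.2 * (ce k e p.1 p.2 : ℂ)

/-- The `n`-th coefficient of `T_m f`, where `f = ∑ a(n) q^n` has weight `K` and level one. -/
noncomputable def hecke (K m : ℕ) (a : ℕ → ℂ) (n : ℕ) : ℂ :=
  ∑ d ∈ (Nat.gcd m n).divisors, (d : ℂ) ^ (K - 1) * a (m * n / d ^ 2)

/-- `∑ a(n) q^n` is a Hecke eigenform of weight `K`: it is nonzero and an eigenvector of every
Hecke operator `T_m`, `m ≥ 1`. -/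
def IsHeckeEigenform (K : ℕ) (a : ℕ → ℂ) : Prop :=
  (∃ n, 1 ≤ n ∧ a n ≠ 0) ∧ ∀ m, 1 ≤ m → ∃ l : ℂ, ∀ n, 1 ≤ n → hecke K m a n = l * a n

end MP836e4b
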