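import Pool.Agent.Work.MP_836e4b_nt.Defs

open Finset
open scoped Real

namespace MP836e4b

lemma desc_bound (m : ℕ) : ∀ N : ℕ, m ≤ N → (N : ℝ) ^ m ≤ 3 ^ m * (N.descFactorial m : ℝ) := by
  induction m with
  | zero => intro N _; simp
  | succ m ih =>
    intro N hN
    obtain ⟨M, rfl⟩ : ∃ M, N = M + 1 := ⟨N - 1, by omega⟩
    have hM : m ≤ M := by omega
    rw [Nat.succ_descFactorial_succ]
    have h1 := ih M hM
    have h2 : ((M : ℝ) + 1) ^ m ≤ 3 * (M : ℝ) ^ m := by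
      rcases Nat.eq_zero_or_pos M with h0 | h0
      · subst h0
        have : m = 0 := by omega
        subst this
        norm_num
      · have hM0 : (0:ℝ) < M := by exact_mod_cast h0
        have h3 : (1 + 1 / (M : ℝ)) ^ m ≤ 3 := by
          calc (1 + 1 / (M : ℝ)) ^ m ≤ (Real.exp (1 / (M : ℝ))) ^ m := by
                apply pow_le_pow_left₀ (by positivity)
                linarith [Real.add_one_le_exp (1 / (M : ℝ))]
            _ ≤ (Real.exp (1 / (M : ℝ))) ^ M := by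
                apply pow_le_pow_right₀ _ hM
                exact Real.one_le_exp (by positivity)
            _ = Real.exp 1 := by
                rw [← Real.exp_nat_mul]
                congr 1
                field_simp
            _ ≤ 3 := by linarith [Real.exp_one_lt_d9]
        have h4 : ((M : ℝ) + 1) ^ m = (1 + 1 / (M : ℝ)) ^ m * (M : ℝ) ^ m := by
          rw [← mul_pow]
          congr 1
          field_simp
        rw [h4]
        exact mul_le_mul_of_nonneg_right h3 (by positivity)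
    push_cast
    calc ((M : ℝ) + 1) ^ (m + 1) = ((M : ℝ) + 1) ^ m * ((M : ℝ) + 1) := pow_succ _ _
      _ ≤ 3 * (M : ℝ) ^ m * ((M : ℝ) + 1) := by
          exact mul_le_mul_of_nonneg_right h2 (by positivity)
      _ ≤ 3 * (3 ^ m * (M.descFactorial m : ℝ)) * ((M : ℝ) + 1) := by
          gcongr
      _ = _ := by ring

lemma sum_inv_sq_le (M : ℕ) : ∑ n ∈ range M, 1 / ((n : ℝ) + 2) ^ 2 ≤ 2 / 3 - 1 / ((M : ℝ) + 3 / 2) := by
  induction M with
  | zero => norm_num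
  | succ M ih =>
    rw [Finset.sum_range_succ]
    have hM : (0:ℝ) ≤ M := Nat.cast_nonneg M
    have : 1 / ((M : ℝ) + 2) ^ 2 ≤ 1 / ((M : ℝ) + 3 / 2) - 1 / (((M + 1 : ℕ) : ℝ) + 3 / 2) := by
      have h1 : 1 / ((M : ℝ) + 3 / 2) - 1 / (((M + 1 : ℕ) : ℝ) + 3 / 2) =
          1 / (((M : ℝ) + 3 / 2) * ((M : ℝ) + 5 / 2)) := by
        push_cast
        field_simp
        ring
      rw [h1]
      apply one_div_le_one_div_of_le (by positivity)
      nlinarith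
    linarith

/-- `∑_{d ∣ n, d ≥ 2} 1/d² ≤ 2/3`. -/
lemma sum_divisors_ge_two (n : ℕ) : ∑ d ∈ n.divisors.filter (fun d => 2 ≤ d), 1 / (d : ℝ) ^ 2 ≤ 2 / 3 := by
  have h1 : ∑ d ∈ n.divisors.filter (fun d => 2 ≤ d), 1 / (d : ℝ) ^ 2 ≤
      ∑ d ∈ (range n).map (addRightEmbedding 2), 1 / (d : ℝ) ^ 2 := by
    apply Finset.sum_le_sum_of_subset_of_nonneg
    · intro d hd
      rw [Finset.mem_filter, Nat.mem_divisors] at hd
      rw [Finset.mem_map]
      refine ⟨d - 2, ?_, ?_⟩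
      · rw [Finset.mem_range]
        have := Nat.le_of_dvd (Nat.pos_of_ne_zero hd.1.2) hd.1.1
        omega
      · simp only [addRightEmbedding_apply]
        omega
    · intro i _ _
      positivity
  rw [Finset.sum_map] at h1
  simp only [addRightEmbedding_apply] at h1
  push_cast at h1
  have h2 := sum_inv_sq_le n
  have h3 : (0:ℝ) ≤ 1 / ((n : ℝ) + 3 / 2) := by positivity
  linarith

lemma divisors_split (n : ℕ) (hn : n ≠ 0) (f : ℕ → ℝ) :
    ∑ d ∈ n.divisors, f d = f 1 + ∑ d ∈ n.divisors.filter (fun d => 2 ≤ d), f d := by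
  have h : n.divisors = insert 1 (n.divisors.filter (fun d => 2 ≤ d)) := by
    ext d
    rw [Finset.mem_insert, Finset.mem_filter, Nat.mem_divisors]
    constructor
    · rintro ⟨h1, h2⟩
      have : d ≠ 0 := by rintro rfl; exact h2 (Nat.eq_zero_of_zero_dvd h1)
      rcases eq_or_ne d 1 with h3 | h3
      · exact Or.inl h3
      · exact Or.inr ⟨⟨h1, h2⟩, by omega⟩
    · rintro (h1 | h1)
      · subst h1; exact ⟨one_dvd _, hn⟩
      · exact h1.1
  conv_lhs => rw [h]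
  rw [Finset.sum_insert]
  rw [Finset.mem_filter]
  intro h
  exact absurd h.2 (by norm_num)

lemma sum_divisors_inv_sq (n : ℕ) (hn : n ≠ 0) : ∑ d ∈ n.divisors, 1 / (d : ℝ) ^ 2 ≤ 5 / 3 := by
  rw [divisors_split n hn]
  have := sum_divisors_ge_two n
  push_cast
  linarith

lemma sum_divisors_inv_five (n m : ℕ) (hn : n ≠ 0) (hm : 5 ≤ m) :
    ∑ d ∈ n.divisors, 1 / (d : ℝ) ^ m ≤ 13 / 12 := by
  rw [divisors_split n hn]
  have h1 : ∑ d ∈ n.divisors.filter (fun d => 2 ≤ d), 1 / (d : ℝ) ^ m ≤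
      ∑ d ∈ n.divisors.filter (fun d => 2 ≤ d), (1 / 8) * (1 / (d : ℝ) ^ 2) := by
    apply Finset.sum_le_sum
    intro d hd
    rw [Finset.mem_filter] at hd
    have hd2 : (2:ℝ) ≤ d := by exact_mod_cast hd.2
    have h2 : (8:ℝ) * (d : ℝ) ^ 2 ≤ (d : ℝ) ^ m := by
      calc (8:ℝ) * (d : ℝ) ^ 2 ≤ (d : ℝ) ^ 3 * (d : ℝ) ^ 2 := by
            apply mul_le_mul_of_nonneg_right _ (by positivity)
            calc (8:ℝ) = 2 ^ 3 := by norm_num
              _ ≤ (d : ℝ) ^ 3 := pow_le_pow_left₀ (by norm_num) hd2 3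
        _ = (d : ℝ) ^ 5 := by ring
        _ ≤ (d : ℝ) ^ m := pow_le_pow_right₀ (by linarith) hm
    calc 1 / (d : ℝ) ^ m ≤ 1 / (8 * (d : ℝ) ^ 2) := by
          apply one_div_le_one_div_of_le (by positivity) h2
      _ = (1 / 8) * (1 / (d : ℝ) ^ 2) := by
          rw [one_div_mul_one_div]
  rw [← Finset.mul_sum] at h1
  have := sum_divisors_ge_two n
  push_cast
  rw [one_pow]
  linarith

lemma sum_divisors_pow (n m : ℕ) (hn : n ≠ 0) (hm : 5 ≤ m) :
    ∑ d ∈ n.divisorsAntidiagonal, (d.2 : ℝ) ^ m ≤ 13 / 12 * (n : ℝ) ^ m := by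
  have h1 : ∑ d ∈ n.divisorsAntidiagonal, (d.2 : ℝ) ^ m =
      ∑ d ∈ n.divisorsAntidiagonal, (n : ℝ) ^ m * (1 / (d.1 : ℝ) ^ m) := by
    apply Finset.sum_congr rfl
    intro d hd
    rw [Nat.mem_divisorsAntidiagonal] at hd
    have h2 : d.1 ≠ 0 := by rintro h; rw [h, zero_mul] at hd; exact hd.2 hd.1.symm
    have h3 : (d.1 : ℝ) ≠ 0 := by exact_mod_cast h2
    rw [← hd.1]
    push_cast
    field_simp
    ring
  rw [h1, ← Finset.mul_sum, Nat.sum_divisorsAntidiagonal (f := fun i _ => 1 / (i : ℝ) ^ m)]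
  have := sum_divisors_inv_five n m hn hm
  calc (n : ℝ) ^ m * ∑ i ∈ n.divisors, 1 / (i : ℝ) ^ m ≤ (n : ℝ) ^ m * (13 / 12) :=
        mul_le_mul_of_nonneg_left this (by positivity)
    _ = _ := by ring

lemma norm_jacobi_le (a : ℤ) (b : ℕ) : ‖((jacobiSym a b : ℤ) : ℂ)‖ ≤ 1 := by
  rcases jacobiSym.trichotomy a b with h | h | h <;> rw [h] <;> simp

lemma sig_bound (k D₁ D₂ n : ℕ) (hk : 3 ≤ k) (hn : n ≠ 0) :
    ‖sig k D₁ D₂ n‖ ≤ 5 / 3 * (n : ℝ) ^ (k - 1) := by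
  rw [sig, if_neg hn]
  have h1 : ∀ p ∈ n.divisorsAntidiagonal,
      ‖((jacobiSym (p.1 : ℤ) D₁ : ℤ) : ℂ) * ((jacobiSym (p.2 : ℤ) D₂ : ℤ) : ℂ) * (p.1 : ℂ) ^ (k - 1)‖ ≤
      (n : ℝ) ^ (k - 1) * (1 / (p.2 : ℝ) ^ 2) := by
    intro p hp
    rw [Nat.mem_divisorsAntidiagonal] at hp
    have h2 : p.2 ≠ 0 := by rintro h; rw [h, mul_zero] at hp; exact hp.2 hp.1.symm
    have h3 : (1:ℝ) ≤ (p.2 : ℝ) := by exact_mod_cast Nat.one_le_iff_ne_zero.mpr h2
    rw [norm_mul, norm_mul, norm_pow, Complex.norm_natCast]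
    have h4 : (n : ℝ) ^ (k - 1) * (1 / (p.2 : ℝ) ^ 2) = (p.1 : ℝ) ^ (k - 1) * ((p.2 : ℝ) ^ (k - 1) / (p.2 : ℝ) ^ 2) := by
      rw [← hp.1]
      push_cast
      ring
    have h5 : 1 ≤ (p.2 : ℝ) ^ (k - 1) / (p.2 : ℝ) ^ 2 := by
      rw [one_le_div (by positivity)]
      exact pow_le_pow_right₀ h3 (by omega)
    rw [h4]
    have h6 := norm_jacobi_le (p.1 : ℤ) D₁
    have h7 := norm_jacobi_le (p.2 : ℤ) D₂
    calc ‖((jacobiSym (p.1 : ℤ) D₁ : ℤ) : ℂ)‖ * ‖((jacobiSym (p.2 : ℤ) D₂ : ℤ) : ℂ)‖ * (p.1 : ℝ) ^ (k - 1)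
        ≤ 1 * 1 * (p.1 : ℝ) ^ (k - 1) := by gcongr
      _ = (p.1 : ℝ) ^ (k - 1) * 1 := by ring
      _ ≤ _ := mul_le_mul_of_nonneg_left h5 (by positivity)
  refine (norm_sum_le _ _).trans ((Finset.sum_le_sum h1).trans ?_)
  rw [← Finset.mul_sum, Nat.sum_divisorsAntidiagonal' (f := fun _ j => 1 / (j : ℝ) ^ 2)]
  have := sum_divisors_inv_sq n hn
  calc (n : ℝ) ^ (k - 1) * ∑ i ∈ n.divisors, 1 / (i : ℝ) ^ 2 ≤ (n : ℝ) ^ (k - 1) * (5 / 3) :=
        mul_le_mul_of_nonneg_left this (by positivity)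
    _ = _ := by ring

end MP836e4b
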