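import Pool.Agent.Work.MP_836e4b_nt.Defs

open Finset MeasureTheory
open scoped Real

namespace MP836e4b

/-- orthogonality -/
lemma integral_exp_int (m : ℤ) :
    ∫ φ in (0:ℝ)..(2 * π), Complex.exp ((m : ℂ) * φ * Complex.I) = if m = 0 then (2 * π : ℂ) else 0 := by
  split_ifs with h
  · subst h
    simp
  · have hm : (m : ℂ) * Complex.I ≠ 0 := mul_ne_zero (by exact_mod_cast h) Complex.I_ne_zero
    have h1 : ∀ φ : ℝ, (m : ℂ) * φ * Complex.I = ((m : ℂ) * Complex.I) * φ := fun φ => by ring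
    simp_rw [h1]
    rw [integral_exp_mul_complex hm]
    have h2 : (m : ℂ) * Complex.I * ((2 * π : ℝ) : ℂ) = (m : ℂ) * (2 * π * Complex.I) := by
      push_cast; ring
    rw [h2, Complex.exp_int_mul_two_pi_mul_I]
    simp

lemma coeff_integral (P : Polynomial ℂ) (e : ℕ) (r : ℝ) :
    ∫ φ in (0:ℝ)..(2 * π), P.eval ((r : ℂ) * Complex.exp (φ * Complex.I)) *
      Complex.exp ((-(e : ℤ) : ℤ) * φ * Complex.I) = 2 * π * (P.coeff e * (r : ℂ) ^ e) := by
  have h1 : ∀ φ : ℝ, P.eval ((r : ℂ) * Complex.exp (φ * Complex.I)) *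
      Complex.exp ((-(e : ℤ) : ℤ) * φ * Complex.I) =
      ∑ j ∈ range (P.natDegree + e + 1), (P.coeff j * (r : ℂ) ^ j) *
        Complex.exp (((j : ℤ) - (e : ℤ) : ℤ) * φ * Complex.I) := by
    intro φ
    rw [Polynomial.eval_eq_sum_range' (n := P.natDegree + e + 1) (by omega), Finset.sum_mul]
    refine Finset.sum_congr rfl fun j _ => ?_
    rw [mul_pow, ← Complex.exp_nat_mul, mul_assoc, mul_assoc, ← Complex.exp_add, ← mul_assoc]
    congr 2
    push_cast
    ring
  simp_rw [h1]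
  rw [intervalIntegral.integral_finsetSum]
  · rw [Finset.sum_eq_single e]
    · rw [intervalIntegral.integral_const_mul, integral_exp_int]
      simp
      ring
    · intro j _ hj
      rw [intervalIntegral.integral_const_mul, integral_exp_int, if_neg (by omega), mul_zero]
    · intro h
      exfalso
      apply h
      simp
  · intro j _
    apply Continuous.intervalIntegrable
    fun_prop

lemma norm_coeff_le (P : Polynomial ℂ) (e : ℕ) (r : ℝ) (hr : 0 < r) (g : ℝ → ℝ)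
    (hg : Continuous g)
    (hP : ∀ φ : ℝ, ‖P.eval ((r : ℂ) * Complex.exp (φ * Complex.I))‖ ≤ g φ) :
    ‖P.coeff e‖ * r ^ e ≤ (2 * π)⁻¹ * ∫ φ in (0:ℝ)..(2 * π), g φ := by
  have h := coeff_integral P e r
  have h2 : ‖∫ φ in (0:ℝ)..(2 * π), P.eval ((r : ℂ) * Complex.exp (φ * Complex.I)) *
      Complex.exp ((-(e : ℤ) : ℤ) * φ * Complex.I)‖ ≤ ∫ φ in (0:ℝ)..(2 * π), g φ := by
    apply intervalIntegral.norm_integral_le_of_norm_le (by positivity)
    · refine Filter.Eventually.of_forall fun φ _ => ?_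
      rw [norm_mul]
      have : ((-(e : ℤ) : ℤ) : ℂ) * φ * Complex.I = ((-(e : ℤ) * φ : ℝ) : ℂ) * Complex.I := by
        push_cast; ring
      rw [this, Complex.norm_exp_ofReal_mul_I, mul_one]
      exact hP φ
    · exact hg.intervalIntegrable _ _
  rw [h] at h2
  have h3 : ‖(2 * π : ℂ) * (P.coeff e * (r : ℂ) ^ e)‖ = 2 * π * (‖P.coeff e‖ * r ^ e) := by
    rw [norm_mul, norm_mul, norm_mul, norm_pow, Complex.norm_real, Complex.norm_real]
    simp only [Complex.norm_ofNat, Real.norm_eq_abs, abs_of_pos hr, abs_of_pos Real.pi_pos]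
  rw [h3] at h2
  rw [← mul_le_mul_iff_right₀ (show (0:ℝ) < 2 * π by positivity)]
  calc 2 * π * (‖P.coeff e‖ * r ^ e) ≤ ∫ φ in (0:ℝ)..(2 * π), g φ := h2
    _ = 2 * π * ((2 * π)⁻¹ * ∫ φ in (0:ℝ)..(2 * π), g φ) := by
        rw [mul_inv_cancel_left₀ (by positivity)]

/-- Gaussian average over the circle. -/
lemma circle_gauss (l : ℝ) (hl : 0 < l) :
    ∫ φ in (0:ℝ)..(2 * π), Real.exp (-l * Real.cos φ ^ 2) ≤ π * √(π / l) := by
  set F : ℝ → ℝ := fun φ => Real.exp (-l * Real.cos φ ^ 2) with hF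
  have hFc : Continuous F := by rw [hF]; fun_prop
  have hper : Function.Periodic F π := by
    intro φ
    simp only [hF, Real.cos_add_pi, neg_sq]
  have h1 : ∫ φ in (0:ℝ)..(2 * π), F φ = 2 * ∫ φ in (0:ℝ)..(0 + π), F φ := by
    have h2 : ∫ φ in (0:ℝ)..(2 * π), F φ = (∫ φ in (0:ℝ)..π, F φ) + ∫ φ in π..(2 * π), F φ := by
      rw [intervalIntegral.integral_add_adjacent_intervals] <;> exact hFc.intervalIntegrable _ _
    have h3 : ∫ φ in π..(2 * π), F φ = ∫ φ in (0:ℝ)..(0 + π), F φ := by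
      have := hper.intervalIntegral_add_eq π 0
      rw [← this]
      congr 1
      ring
    rw [h2, h3, zero_add]
    ring
  have h4 : ∫ φ in (0:ℝ)..(0 + π), F φ = ∫ φ in (0:ℝ)..(0 + π), F φ := rfl
  have h5 : ∫ φ in (0:ℝ)..(0 + π), F φ = ∫ u in (-(π/2))..(π/2), Real.exp (-l * Real.sin u ^ 2) := by
    have h6 : ∫ u in (-(π/2))..(π/2), F (u + π/2) = ∫ φ in (-(π/2) + π/2)..(π/2 + π/2), F φ :=
      intervalIntegral.integral_comp_add_right F (π/2)
    have h7 : ∀ u, F (u + π/2) = Real.exp (-l * Real.sin u ^ 2) := by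
      intro u
      simp only [hF, Real.cos_add_pi_div_two, neg_sq]
    simp_rw [h7] at h6
    rw [h6]
    congr 1 <;> ring
  have h8 : ∫ u in (-(π/2))..(π/2), Real.exp (-l * Real.sin u ^ 2) ≤
      ∫ u in (-(π/2))..(π/2), Real.exp (-(4 * l / π ^ 2) * u ^ 2) := by
    apply intervalIntegral.integral_mono_on (by linarith [Real.pi_pos])
    · apply Continuous.intervalIntegrable; fun_prop
    · apply Continuous.intervalIntegrable; fun_prop
    · intro u hu
      apply Real.exp_le_exp.mpr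
      have h9 : (2 / π * |u|) ^ 2 ≤ Real.sin u ^ 2 := by
        rw [← sq_abs (Real.sin u)]
        have h10 : 2 / π * |u| ≤ |Real.sin u| := by
          rcases le_or_gt 0 u with h | h
          · rw [abs_of_nonneg h]
            exact (Real.mul_le_sin h hu.2).trans (le_abs_self _)
          · rw [abs_of_neg h, ← abs_neg, ← Real.sin_neg]
            exact (Real.mul_le_sin (by linarith) (by linarith [hu.1])).trans (le_abs_self _)
        exact pow_le_pow_left₀ (by positivity) h10 2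
      rw [mul_pow, sq_abs] at h9
      have h11 : (2 / π) ^ 2 * u ^ 2 * l ≤ Real.sin u ^ 2 * l := mul_le_mul_of_nonneg_right h9 hl.le
      have h12 : 4 * l / π ^ 2 * u ^ 2 = (2 / π) ^ 2 * u ^ 2 * l := by ring
      linarith
  have h13 : ∫ u in (-(π/2))..(π/2), Real.exp (-(4 * l / π ^ 2) * u ^ 2) ≤ √(π / (4 * l / π ^ 2)) := by
    rw [← integral_gaussian, intervalIntegral.integral_of_le (by linarith [Real.pi_pos])]
    apply setIntegral_le_integral
    · exact integrable_exp_neg_mul_sq (by positivity)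
    · exact Filter.Eventually.of_forall fun u => (Real.exp_pos _).le
  have h14 : √(π / (4 * l / π ^ 2)) = π / 2 * √(π / l) := by
    have : π / (4 * l / π ^ 2) = (π / 2) ^ 2 * (π / l) := by
      field_simp
      ring
    rw [this, Real.sqrt_mul (by positivity), Real.sqrt_sq (by positivity)]
  calc ∫ φ in (0:ℝ)..(2 * π), F φ = 2 * ∫ φ in (0:ℝ)..(0 + π), F φ := h1
    _ ≤ 2 * (π / 2 * √(π / l)) := by
        rw [h5, ← h14]
        exact mul_le_mul_of_nonneg_left (h8.trans h13) (by norm_num)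
    _ = π * √(π / l) := by ring

/-- the polynomial whose coefficients are the `c_e`. -/
noncomputable def Pab (N a b : ℕ) : Polynomial ℂ :=
  (1 + Polynomial.C (-(a : ℂ)) * Polynomial.X) ^ N * (1 + Polynomial.C (b : ℂ) * Polynomial.X) ^ N

lemma coeff_lin_pow (c : ℂ) (N j : ℕ) :
    ((1 + Polynomial.C c * Polynomial.X) ^ N : Polynomial ℂ).coeff j = c ^ j * (N.choose j : ℂ) := by
  have h : (1 + Polynomial.C c * Polynomial.X : Polynomial ℂ) =
      (1 + Polynomial.X : Polynomial ℂ).comp (Polynomial.C c * Polynomial.X) := by simp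
  rw [h, ← Polynomial.pow_comp, Polynomial.comp_C_mul_X_coeff, Polynomial.coeff_one_add_X_pow]
  ring

lemma ce_eq_coeff (k e a b : ℕ) : (ce k e a b : ℂ) = (Pab (e + k - 1) a b).coeff e := by
  rw [Pab, Polynomial.coeff_mul, Finset.Nat.sum_antidiagonal_eq_sum_range_succ_mk, ce]
  push_cast
  refine Finset.sum_congr rfl fun r _ => ?_
  rw [coeff_lin_pow, coeff_lin_pow, neg_pow]
  ring

lemma norm_Pab_eval (N a b : ℕ) (ha : 1 ≤ a) (hb : 1 ≤ b) (r w φ : ℝ) (hr : 0 < r)
    (hr2 : (a : ℝ) * b * r ^ 2 = 1) (hw : w = (a + b) * r) :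
    ‖(Pab N a b).eval ((r : ℂ) * Complex.exp (φ * Complex.I))‖ ≤
      w ^ N * Real.exp (-(2 * N / w ^ 2) * Real.cos φ ^ 2) := by
  have hw0 : 0 < w := by rw [hw]; positivity
  set z : ℂ := (r : ℂ) * Complex.exp (φ * Complex.I) with hz
  have hzre : z.re = r * Real.cos φ := by
    rw [hz, Complex.re_ofReal_mul, Complex.exp_ofReal_mul_I_re]
  have hzim : z.im = r * Real.sin φ := by
    rw [hz, Complex.im_ofReal_mul, Complex.exp_ofReal_mul_I_im]
  have h1 : ‖(Pab N a b).eval z‖ = ‖(1 + -(a : ℂ) * z) * (1 + (b : ℂ) * z)‖ ^ N := by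
    rw [Pab]
    simp only [Polynomial.eval_mul, Polynomial.eval_pow, Polynomial.eval_add, Polynomial.eval_one,
      Polynomial.eval_C, Polynomial.eval_X]
    rw [← mul_pow, norm_pow]
  have h2 : ‖(1 + -(a : ℂ) * z) * (1 + (b : ℂ) * z)‖ ^ 2 = w ^ 2 - 4 * Real.cos φ ^ 2 := by
    rw [norm_mul, mul_pow, Complex.sq_norm, Complex.sq_norm, Complex.normSq_apply,
      Complex.normSq_apply]
    simp only [Complex.add_re, Complex.add_im, Complex.mul_re, Complex.mul_im, Complex.neg_re,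
      Complex.neg_im, Complex.natCast_re, Complex.natCast_im, Complex.one_re, Complex.one_im,
      hzre, hzim, hw]
    have hs : Real.sin φ ^ 2 = 1 - Real.cos φ ^ 2 := Real.sin_sq φ
    set c := Real.cos φ
    set s := Real.sin φ
    have e1 : (1 + (-(a:ℝ) * (r * c) - -0 * (r * s))) * (1 + (-(a:ℝ) * (r * c) - -0 * (r * s))) +
        (0 + (-(a:ℝ) * (r * s) + -0 * (r * c))) * (0 + (-(a:ℝ) * (r * s) + -0 * (r * c))) =
        1 - 2 * (a * r) * c + (a * r) ^ 2 * (c ^ 2 + s ^ 2) := by ring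
    have e2 : (1 + ((b:ℝ) * (r * c) - 0 * (r * s))) * (1 + ((b:ℝ) * (r * c) - 0 * (r * s))) +
        (0 + ((b:ℝ) * (r * s) + 0 * (r * c))) * (0 + ((b:ℝ) * (r * s) + 0 * (r * c))) =
        1 + 2 * (b * r) * c + (b * r) ^ 2 * (c ^ 2 + s ^ 2) := by ring
    rw [e1, e2, hs]
    have hab : (a * r) * (b * r) = (1:ℝ) := by rw [← hr2]; ring
    have e3 : ((a:ℝ) + b) * r = a * r + b * r := by ring
    rw [e3]
    set A := (a:ℝ) * r
    set B := (b:ℝ) * r
    have : (1 - 2 * A * c + A ^ 2 * (c ^ 2 + (1 - c ^ 2))) * (1 + 2 * B * c + B ^ 2 * (c ^ 2 + (1 - c ^ 2))) =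
      (A + B) ^ 2 - 4 * c ^ 2 + (A * B - 1) * (2 * c * (A - B) - 4 * c ^ 2 + A * B - 1) := by ring
    rw [this, hab]
    ring
  have h3 : ‖(1 + -(a : ℂ) * z) * (1 + (b : ℂ) * z)‖ ≤
      w * Real.exp (-(2 / w ^ 2) * Real.cos φ ^ 2) := by
    apply le_of_sq_le_sq _ (by positivity)
    rw [h2, mul_pow, ← Real.exp_nat_mul]
    have h4 := Real.add_one_le_exp (((2:ℕ):ℝ) * (-(2 / w ^ 2) * Real.cos φ ^ 2))
    have h5 : w ^ 2 * (((2:ℕ):ℝ) * (-(2 / w ^ 2) * Real.cos φ ^ 2) + 1) = w ^ 2 - 4 * Real.cos φ ^ 2 := by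
      field_simp
      push_cast
      ring
    rw [← h5]
    exact mul_le_mul_of_nonneg_left h4 (by positivity)
  rw [h1]
  calc ‖(1 + -(a : ℂ) * z) * (1 + (b : ℂ) * z)‖ ^ N ≤
      (w * Real.exp (-(2 / w ^ 2) * Real.cos φ ^ 2)) ^ N := pow_le_pow_left₀ (norm_nonneg _) h3 N
    _ = w ^ N * Real.exp (-(2 * N / w ^ 2) * Real.cos φ ^ 2) := by
        rw [mul_pow, ← Real.exp_nat_mul]
        congr 2
        ring

/-- The main bound on the coefficients `c_e(a,b)`. -/
lemma ce_bound (k e a b : ℕ) (hk : 3 ≤ k) (ha : 1 ≤ a) (hb : 1 ≤ b) :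
    ((a : ℝ) * b) ^ (k - 1) * |(ce k e a b : ℝ)| ≤
      (63 / 100) * ((a : ℝ) + b) ^ (2 * k + e - 2) / 2 ^ (k - 2) / √((k + e - 1 : ℕ) : ℝ) := by
  set N := k + e - 1 with hN
  have hN2 : e + k - 1 = N := by omega
  have hN0 : (0:ℝ) < N := by
    have : 0 < N := by omega
    exact_mod_cast this
  set s : ℝ := √((a : ℝ) * b) with hs
  have ha' : (0:ℝ) < a := by exact_mod_cast ha
  have hb' : (0:ℝ) < b := by exact_mod_cast hb
  have hab : (0:ℝ) < (a : ℝ) * b := by positivity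
  have hs0 : 0 < s := Real.sqrt_pos.mpr hab
  have hs2 : s ^ 2 = (a : ℝ) * b := Real.sq_sqrt hab.le
  set w : ℝ := ((a : ℝ) + b) * s⁻¹ with hw
  have hw0 : 0 < w := by positivity
  have hr2 : (a : ℝ) * b * (s⁻¹) ^ 2 = 1 := by
    rw [← hs2, inv_pow, mul_inv_cancel₀ (by positivity)]
  have h1 := norm_coeff_le (Pab N a b) e s⁻¹ (by positivity)
    (fun φ => w ^ N * Real.exp (-(2 * N / w ^ 2) * Real.cos φ ^ 2)) (by fun_prop)
    (fun φ => norm_Pab_eval N a b ha hb s⁻¹ w φ (by positivity) hr2 hw)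
  rw [← hN2, ← ce_eq_coeff, hN2, intervalIntegral.integral_const_mul] at h1
  have h2 : ‖(ce k e a b : ℂ)‖ = |(ce k e a b : ℝ)| := by
    rw [Complex.norm_intCast]
  rw [h2] at h1
  have h3 := circle_gauss (2 * N / w ^ 2) (by positivity)
  have h4 : √(π / (2 * N / w ^ 2)) ≤ (126 / 100) * w / √N := by
    apply Real.sqrt_le_iff.mpr
    refine ⟨by positivity, ?_⟩
    rw [div_pow, mul_pow (126 / 100 : ℝ) w 2, Real.sq_sqrt hN0.le]
    have : π / (2 * N / w ^ 2) = (π / 2) * w ^ 2 / N := by field_simp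
    rw [this]
    apply div_le_div_of_nonneg_right _ hN0.le
    apply mul_le_mul_of_nonneg_right _ (by positivity)
    nlinarith [Real.pi_lt_d2]
  have h5 : |(ce k e a b : ℝ)| * s⁻¹ ^ e ≤ (63 / 100) * w ^ (N + 1) / √N := by
    calc |(ce k e a b : ℝ)| * s⁻¹ ^ e ≤ (2 * π)⁻¹ * (w ^ N *
          ∫ φ in (0:ℝ)..(2 * π), Real.exp (-(2 * N / w ^ 2) * Real.cos φ ^ 2)) := h1
      _ ≤ (2 * π)⁻¹ * (w ^ N * (π * ((126 / 100) * w / √N))) := by
          gcongr
          exact h3.trans (by gcongr)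
      _ = (63 / 100) * w ^ (N + 1) / √N := by
          field_simp
          ring
  have h6 : |(ce k e a b : ℝ)| ≤ (63 / 100) * w ^ (N + 1) / √N * s ^ e := by
    calc |(ce k e a b : ℝ)| = |(ce k e a b : ℝ)| * s⁻¹ ^ e * s ^ e := by
          rw [mul_assoc, ← mul_pow, inv_mul_cancel₀ hs0.ne', one_pow, mul_one]
      _ ≤ _ := mul_le_mul_of_nonneg_right h5 (by positivity)
  have h7 : s ≤ ((a : ℝ) + b) / 2 := by
    apply Real.sqrt_le_iff.mpr
    refine ⟨by positivity, ?_⟩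
    nlinarith [sq_nonneg ((a : ℝ) - b)]
  calc ((a : ℝ) * b) ^ (k - 1) * |(ce k e a b : ℝ)| ≤
      (s ^ 2) ^ (k - 1) * ((63 / 100) * w ^ (N + 1) / √N * s ^ e) := by
        rw [hs2]
        exact mul_le_mul_of_nonneg_left h6 (by positivity)
    _ = (63 / 100) * s ^ (k - 2) * ((a : ℝ) + b) ^ (N + 1) / √N := by
        have e1 : w ^ (N + 1) = ((a : ℝ) + b) ^ (N + 1) / s ^ (N + 1) := by
          rw [hw, mul_pow, inv_pow]; rfl
        have e2 : s ^ (2 * (k - 1)) * s ^ e = s ^ (k - 2) * s ^ (N + 1) := by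
          rw [← pow_add, ← pow_add]
          congr 1
          omega
        rw [e1, ← pow_mul]
        field_simp
        linear_combination e2
    _ ≤ (63 / 100) * (((a : ℝ) + b) / 2) ^ (k - 2) * ((a : ℝ) + b) ^ (N + 1) / √N := by
        gcongr
    _ = _ := by
        have e3 : 2 * k + e - 2 = (k - 2) + (N + 1) := by omega
        rw [e3, pow_add, div_pow]
        ring

end MP836e4b
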