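import Pool.Agent.Work.MP_836e4b_nt.Defs

open Finset
open scoped Real ZMod

namespace MP836e4b

lemma chi_apply (m : ℕ) [NeZero m] (x : ZMod m) :
    chi m x = ((jacobiSym (x.val : ℤ) m : ℤ) : ℂ) := rfl

lemma chi_intCast (m : ℕ) [NeZero m] (n : ℤ) :
    chi m (n : ZMod m) = ((jacobiSym n m : ℤ) : ℂ) := by
  rw [chi_apply]
  congr 1
  apply jacobiSym.mod_left'
  rw [ZMod.val_intCast, Int.emod_emod_of_dvd _ dvd_rfl]

lemma chi_natCast (m : ℕ) [NeZero m] (n : ℕ) :
    chi m (n : ZMod m) = ((jacobiSym (n : ℤ) m : ℤ) : ℂ) := by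
  have := chi_intCast m (n : ℤ)
  simpa using this

lemma chi_neg_one (m : ℕ) [NeZero m] : chi m (-1) = ((jacobiSym (-1) m : ℤ) : ℂ) := by
  have := chi_intCast m (-1)
  simpa using this

/-- the Jacobi symbol modulo an odd squarefree number is a primitive character. -/
lemma chi_isPrimitive (m : ℕ) [NeZero m] (hodd : Odd m) (hsq : Squarefree m) :
    (chi m).IsPrimitive := by
  rw [DirichletCharacter.isPrimitive_def]
  by_contra hne
  set d := (chi m).conductor with hd
  have hdm : d ∣ m := (chi m).conductor_dvd_level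
  obtain ⟨c, hc⟩ := hdm
  have hc1 : c ≠ 1 := by
    rintro rfl
    exact hne (by rw [hc, mul_one])
  obtain ⟨p, hp, hpc⟩ := Nat.exists_prime_and_dvd hc1
  obtain ⟨c', hc'⟩ := hpc
  -- m = p * q with d ∣ q
  set q := d * c' with hq
  have hm : m = q * p := by rw [hc, hc', hq]; ring
  have hm0 : m ≠ 0 := NeZero.ne m
  have hq0 : q ≠ 0 := by rintro h; rw [hm, h, zero_mul] at hm0; exact hm0 rfl
  have hcop : Nat.Coprime q p := by
    rw [hm] at hsq
    exact Nat.coprime_of_squarefree_mul hsq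
  have hpodd : p ≠ 2 := by
    rintro rfl
    rw [hm] at hodd
    exact (Nat.not_odd_iff_even.mpr (even_two.mul_left q)) hodd
  have : Fact p.Prime := ⟨hp⟩
  obtain ⟨g, hg⟩ := FiniteField.exists_nonsquare (F := ZMod p) (by rw [ZMod.ringChar_zmod_n]; exact hpodd)
  obtain ⟨a, ha1, ha2⟩ := Nat.chineseRemainder hcop 1 g.val
  have ja_q : jacobiSym (a : ℤ) q = 1 := by
    rw [jacobiSym.mod_left' (a₂ := 1) (by exact_mod_cast ha1), jacobiSym.one_left]
  have ja_p : jacobiSym (a : ℤ) p = -1 := by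
    rw [← jacobiSym.legendreSym.to_jacobiSym, legendreSym.eq_neg_one_iff]
    have : ((a : ℤ) : ZMod p) = g := by
      have h2 : (a : ZMod p) = ((g.val : ℕ) : ZMod p) := (ZMod.natCast_eq_natCast_iff _ _ _).mpr ha2
      rw [Int.cast_natCast, h2, ZMod.natCast_zmod_val]
    rw [this]
    exact hg
  have ja : jacobiSym (a : ℤ) m = -1 := by
    rw [hm, jacobiSym.mul_right' _ hq0 hp.ne_zero, ja_q, ja_p, one_mul]
  have hfac := (chi m).factorsThrough_conductor
  have hcopa : IsCoprime (a : ℤ) (m : ℤ) := by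
    rw [Nat.isCoprime_iff_coprime]
    by_contra h
    have : jacobiSym (a : ℤ) m = 0 := by
      rw [jacobiSym.eq_zero_iff_not_coprime]
      simpa [Nat.Coprime] using h
    rw [this] at ja
    norm_num at ja
  have h1 : chi m (a : ZMod m) = hfac.χ₀ (a : ZMod (chi m).conductor) := by
    have h := DirichletCharacter.changeLevel_eq_cast_of_dvd' (χ := hfac.χ₀) hfac.dvd hcopa
    rw [← hfac.eq_changeLevel] at h
    simpa using h
  have h2 : (a : ZMod (chi m).conductor) = 1 := by
    have h3 : a ≡ 1 [MOD (chi m).conductor] := by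
      apply Nat.ModEq.of_dvd (n := q) _ ha1
      rw [hq]
      exact Dvd.intro _ rfl
    have := (ZMod.natCast_eq_natCast_iff _ _ _).mpr h3
    simpa using this
  rw [h2, map_one, chi_natCast, ja] at h1
  norm_num at h1

lemma chi_mul_self (m : ℕ) [NeZero m] : (chi m)⁻¹ = chi m := by
  rw [inv_eq_iff_mul_eq_one]
  ext x
  rw [MulChar.mul_apply, MulChar.one_apply_coe, chi_apply]
  have hx : Nat.Coprime (x : ZMod m).val m := ZMod.val_coe_unit_coprime x
  have h := jacobiSym.sq_one (a := ((x : ZMod m).val : ℤ)) (b := m) (by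
    rw [Int.gcd_natCast_natCast]
    exact hx)
  rw [← Int.cast_mul, ← sq, h]
  simp

/-- The norm of the Gauss sum. -/
lemma norm_gauss (m : ℕ) [NeZero m] (hodd : Odd m) (hsq : Squarefree m) :
    ‖gaussSum (chi m) ZMod.stdAddChar‖ = √(m : ℝ) := by
  have hprim := chi_isPrimitive m hodd hsq
  set g := gaussSum (chi m) ZMod.stdAddChar with hg
  have h1 : 𝓕 (chi m : ZMod m → ℂ) = fun k => (chi m (-1) * g) * chi m k := by
    funext k
    rw [hprim.fourierTransform_eq_inv_mul_gaussSum, chi_mul_self, ← hg]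
    have : chi m (-k) = chi m (-1) * chi m k := by rw [← map_mul]; congr 1; ring
    rw [this]
    ring
  have h2 := ZMod.dft_dft (chi m : ZMod m → ℂ)
  have h3 : 𝓕 (𝓕 (chi m : ZMod m → ℂ)) 1 = (chi m (-1) * g) * ((chi m (-1) * g) * chi m 1) := by
    rw [h1, ZMod.dft_const_mul]
    have := congr_fun h1 1
    beta_reduce
    rw [this]
  rw [h2] at h3
  have h4 : ‖(m : ℂ) • chi m (-1)‖ = ‖(chi m (-1) * g) * ((chi m (-1) * g) * chi m 1)‖ := by
    rw [← h3]
  have h5 : ‖chi m (-1)‖ = 1 := by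
    rw [chi_neg_one]
    have h := jacobiSym.eq_one_or_neg_one (a := -1) (b := m) (by simp)
    rcases h with h | h <;> rw [h] <;> simp
  rw [map_one, mul_one, norm_mul, norm_mul, smul_eq_mul, norm_mul, h5, one_mul, mul_one] at h4
  have h6 : ‖(m : ℂ)‖ = (m : ℝ) := by simp
  rw [h6] at h4
  rw [h4, Real.sqrt_mul_self (norm_nonneg _)]

lemma Lval_eq (m : ℕ) [NeZero m] (s : ℂ) : Lval m s = DirichletCharacter.LFunction (chi m) s := by
  rw [Lval, dif_neg (NeZero.ne m)]

lemma zlf_const_mul {N : ℕ} [NeZero N] (c : ℂ) (Φ : ZMod N → ℂ) (s : ℂ) :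
    ZMod.LFunction (fun x => c * Φ x) s = c * ZMod.LFunction Φ s := by
  simp only [ZMod.LFunction, mul_assoc, ← mul_sum]
  ring

/-- The functional equation, absolute values. -/
lemma Lval_one_sub_norm (m k : ℕ) [NeZero m] (hodd : Odd m) (hsq : Squarefree m) (hk : 2 ≤ k)
    (hpar : jacobiSym (-1) m = (-1) ^ k) :
    ‖Lval m (1 - k)‖ = (m : ℝ) ^ (k - 1) / (2 * π) ^ k * ((k - 1).factorial : ℝ) *
      (2 * √(m : ℝ) * ‖Lval m k‖) := by
  have hprim := chi_isPrimitive m hodd hsq
  set g := gaussSum (chi m) ZMod.stdAddChar with hg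
  have hm1 : chi m (-1) = (-1) ^ k := by rw [chi_neg_one, hpar]; push_cast; rfl
  have h1 : 𝓕 (chi m : ZMod m → ℂ) = fun x => (chi m (-1) * g) * chi m x := by
    funext x
    rw [hprim.fourierTransform_eq_inv_mul_gaussSum, chi_mul_self, ← hg]
    have : chi m (-x) = chi m (-1) * chi m x := by rw [← map_mul]; congr 1; ring
    rw [this]
    ring
  have h2 : (fun x : ZMod m => chi m (-x)) = fun x => chi m (-1) * chi m x := by
    funext x
    rw [← map_mul]; congr 1; ring
  have h3 : 𝓕 (fun x : ZMod m => chi m (-x)) = fun x => (chi m (-1) * (chi m (-1) * g)) * chi m x := by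
    rw [h2, ZMod.dft_const_mul, h1]
    funext x
    ring
  have h4 := ZMod.LFunction_one_sub (chi m : ZMod m → ℂ) (s := (k : ℂ))
    (by
      intro n h
      have := congr_arg Complex.re h
      simp at this
      have h5 : (k : ℝ) + n = 0 := by linarith
      have h6 : (0:ℝ) < k := by exact_mod_cast (by omega : 0 < k)
      have h7 : (0:ℝ) ≤ n := Nat.cast_nonneg n
      linarith)
    (Or.inr (by
      intro h
      have : k = 1 := by exact_mod_cast h
      omega))
  rw [h1, h3, zlf_const_mul, zlf_const_mul] at h4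
  have h5 : Complex.exp (-π * Complex.I * k / 2) = (-1) ^ k * Complex.exp (π * Complex.I * k / 2) := by
    rw [← Complex.exp_pi_mul_I, ← Complex.exp_nat_mul, ← Complex.exp_add]
    rw [Complex.exp_eq_exp_iff_exists_int]
    refine ⟨-(k : ℤ), ?_⟩
    push_cast
    ring
  rw [h5, hm1] at h4
  rw [Lval_eq, Lval_eq, DirichletCharacter.LFunction, DirichletCharacter.LFunction, h4]
  have h6 : ((-1 : ℂ) ^ k) * (-1) ^ k = 1 := by rw [← mul_pow]; simp
  have h7 : Complex.exp (π * Complex.I * k / 2) * ((-1) ^ k * g * ZMod.LFunction (chi m) k) +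
      (-1) ^ k * Complex.exp (π * Complex.I * k / 2) * ((-1) ^ k * ((-1) ^ k * g) * ZMod.LFunction (chi m) k)
      = Complex.exp (π * Complex.I * k / 2) * (-1) ^ k * (2 * g * ZMod.LFunction (chi m) k) := by
    linear_combination (Complex.exp (π * Complex.I * k / 2) * (-1) ^ k * g * ZMod.LFunction (chi m) k) * h6
  rw [h7]
  have h8 : Complex.Gamma k = ((k - 1).factorial : ℂ) := by
    have : (k : ℂ) = ((k - 1 : ℕ) : ℂ) + 1 := by
      rw [Nat.cast_sub (by omega)]; push_cast; ring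
    rw [this, Complex.Gamma_nat_eq_factorial]
  have h9 : (m : ℂ) ^ ((k : ℂ) - 1) = (m : ℂ) ^ (k - 1) := by
    have : (k : ℂ) - 1 = ((k - 1 : ℕ) : ℂ) := by
      rw [Nat.cast_sub (by omega)]; push_cast; ring
    rw [this, Complex.cpow_natCast]
  have h10 : (2 * π : ℂ) ^ (-(k : ℂ)) = ((2 * π : ℂ) ^ k)⁻¹ := by
    rw [Complex.cpow_neg, Complex.cpow_natCast]
  have h11 : ‖Complex.exp (π * Complex.I * k / 2)‖ = 1 := by
    have : (π * Complex.I * k / 2 : ℂ) = ((π * k / 2 : ℝ) : ℂ) * Complex.I := by push_cast; ring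
    rw [this, Complex.norm_exp_ofReal_mul_I]
  rw [h8, h9, h10]
  simp only [norm_mul, norm_pow, norm_inv, h11, norm_neg, norm_one, one_pow, one_mul, mul_one,
    Complex.norm_natCast, Complex.norm_ofNat, Complex.norm_real, Real.norm_eq_abs,
    abs_of_pos Real.pi_pos]
  rw [hg, norm_gauss m hodd hsq]
  ring

lemma Lval_ge (m k : ℕ) [NeZero m] (hk : 3 ≤ k) : 3 / 4 ≤ ‖Lval m k‖ := by
  have hre : 1 < (k : ℂ).re := by
    simp
    omega
  rw [Lval_eq, DirichletCharacter.LFunction_eq_LSeries _ hre, LSeries]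
  have hsum : Summable (LSeries.term (fun n : ℕ => chi m n) k) :=
    (DirichletCharacter.LSeriesSummable_of_one_lt_re (chi m) hre)
  rw [← hsum.sum_add_tsum_nat_add 2]
  have h0 : ∑ i ∈ range 2, LSeries.term (fun n : ℕ => chi m n) k i = 1 := by
    rw [Finset.sum_range_succ, Finset.sum_range_one, LSeries.term_zero, LSeries.term_def,
      if_neg one_ne_zero]
    simp
  rw [h0]
  have hterm : ∀ n : ℕ, ‖LSeries.term (fun n : ℕ => chi m n) k (n + 2)‖ ≤ 1 / ((n : ℝ) + 2) ^ 3 := by
    intro n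
    rw [LSeries.norm_term_eq, if_neg (by omega)]
    have h1 : ‖chi m ((n + 2 : ℕ) : ZMod m)‖ ≤ 1 := DirichletCharacter.norm_le_one _ _
    have h2 : (((n + 2 : ℕ) : ℝ)) ^ (k : ℂ).re = ((n : ℝ) + 2) ^ k := by
      rw [Complex.natCast_re, Real.rpow_natCast]; push_cast; rfl
    rw [h2]
    have h3 : ((n : ℝ) + 2) ^ 3 ≤ ((n : ℝ) + 2) ^ k :=
      pow_le_pow_right₀ (by linarith [(Nat.cast_nonneg n : (0:ℝ) ≤ n)]) hk
    gcongr
  have hpart : ∀ M : ℕ, ∑ n ∈ range M, 1 / ((n : ℝ) + 2) ^ 3 ≤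
      1 / 4 - 1 / (2 * ((M : ℝ) + 1) * (M + 2)) := by
    intro M
    induction M with
    | zero => norm_num
    | succ M ih =>
      rw [Finset.sum_range_succ]
      have hM : (0:ℝ) ≤ M := Nat.cast_nonneg M
      have : 1 / ((M : ℝ) + 2) ^ 3 ≤ 1 / (2 * ((M : ℝ) + 1) * (M + 2)) -
          1 / (2 * (((M + 1 : ℕ) : ℝ) + 1) * (((M + 1 : ℕ) : ℝ) + 2)) := by
        have h1 : 1 / (2 * ((M : ℝ) + 1) * (M + 2)) -
          1 / (2 * (((M + 1 : ℕ) : ℝ) + 1) * (((M + 1 : ℕ) : ℝ) + 2)) =
            1 / (((M : ℝ) + 1) * (M + 2) * (M + 3)) := by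
          push_cast
          field_simp
          ring
        rw [h1]
        apply one_div_le_one_div_of_le (by positivity)
        nlinarith
      linarith
  have hs2 : Summable fun n : ℕ => ‖LSeries.term (fun n : ℕ => chi m n) k (n + 2)‖ :=
    ((summable_nat_add_iff 2).mpr hsum).norm
  have htail : ‖∑' n : ℕ, LSeries.term (fun n : ℕ => chi m n) k (n + 2)‖ ≤ 1 / 4 := by
    refine (norm_tsum_le_tsum_norm hs2).trans ?_
    refine Real.tsum_le_of_sum_range_le (fun n => norm_nonneg _) fun M => ?_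
    calc ∑ n ∈ range M, ‖LSeries.term (fun n : ℕ => chi m n) k (n + 2)‖ ≤
        ∑ n ∈ range M, 1 / ((n : ℝ) + 2) ^ 3 := Finset.sum_le_sum fun n _ => hterm n
      _ ≤ 1 / 4 - 1 / (2 * ((M : ℝ) + 1) * (M + 2)) := hpart M
      _ ≤ 1 / 4 := by
        have : (0:ℝ) ≤ 1 / (2 * ((M : ℝ) + 1) * (M + 2)) := by positivity
        linarith
  have h2 := norm_sub_norm_le (1 : ℂ) (-∑' n : ℕ, LSeries.term (fun n : ℕ => chi m n) k (n + 2))
  rw [norm_one, norm_neg, sub_neg_eq_add] at h2
  linarith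

/-- the constant terms with `D₂ > 1` vanish. -/
lemma Lval_zero (k D₁ D₂ : ℕ) [NeZero D₁] [NeZero D₂] (hk : 3 ≤ k) (hD₂ : 1 < D₂)
    (hpar : jacobiSym (-1) (D₁ * D₂) = (-1) ^ k) :
    Lval D₁ (1 - k) * Lval D₂ 0 = 0 := by
  rw [jacobiSym.mul_right] at hpar
  rcases jacobiSym.eq_one_or_neg_one (a := -1) (b := D₂) (by simp) with h | h
  · have hev : (chi D₂ : ZMod D₂ → ℂ).Even := by
      intro x
      have : chi D₂ (-x) = chi D₂ (-1) * chi D₂ x := by rw [← map_mul]; congr 1; ring
      rw [this, chi_neg_one, h]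
      simp
    have : Lval D₂ 0 = 0 := by
      rw [Lval_eq, DirichletCharacter.LFunction, ZMod.LFunction_apply_zero_of_even hev]
      have h0 : chi D₂ 0 = 0 := by
        have := chi_natCast D₂ 0
        rw [Nat.cast_zero, Nat.cast_zero, jacobiSym.zero_left hD₂] at this
        simpa using this
      rw [h0]
      simp
    rw [this, mul_zero]
  · rw [h] at hpar
    have h1 : jacobiSym (-1) D₁ = (-1) ^ (k + 1) := by
      rw [pow_succ, ← hpar]
      ring
    have : Lval D₁ (1 - k) = 0 := by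
      rw [Lval_eq]
      rcases Nat.even_or_odd k with hke | hko
      · have hodd : (chi D₁).Odd := by
          rw [DirichletCharacter.Odd, chi_neg_one, h1, hke.add_one.neg_one_pow]
          simp
        obtain ⟨n, hn⟩ : ∃ n, k = 2 * n + 2 := by
          obtain ⟨j, hj⟩ := hke
          exact ⟨j - 1, by omega⟩
        have := hodd.LFunction_neg_two_mul_nat_sub_one n
        rw [← this]
        congr 1
        rw [hn]
        push_cast
        ring
      · have heven : (chi D₁).Even := by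
          rw [DirichletCharacter.Even, chi_neg_one, h1, hko.add_one.neg_one_pow]
          simp
        obtain ⟨n, hn⟩ : ∃ n, k = 2 * (n + 1) + 1 := by
          obtain ⟨j, hj⟩ := hko
          exact ⟨j - 1, by omega⟩
        have := heven.LFunction_neg_two_mul_nat_add_one n
        rw [← this]
        congr 1
        rw [hn]
        push_cast
        ring
    rw [this, zero_mul]

lemma Lval_one_zero : Lval 1 0 = -1 / 2 := by
  rw [Lval_eq, DirichletCharacter.LFunction_modOne_eq, riemannZeta_zero]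

end MP836e4b
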