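import Pool.Agent.Work.MP_836e4b_nt.Char
import Pool.Agent.Work.MP_836e4b_nt.CBound
import Pool.Agent.Work.MP_836e4b_nt.Arith

open Finset
open scoped Real

namespace MP836e4b

lemma ce_symm (k e a b : ℕ) : ce k e a b = (-1) ^ e * ce k e b a := by
  rw [ce, ce, Finset.mul_sum, ← Finset.sum_range_reflect]
  refine Finset.sum_congr rfl fun r hr => ?_
  rw [Finset.mem_range] at hr
  have h1 : e + 1 - 1 - r = e - r := by omega
  have h2 : e - (e - r) = r := by omega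
  rw [h1, h2]
  have h3 : (-1 : ℤ) ^ e = (-1) ^ (e - r) * (-1) ^ r := by
    rw [← pow_add]; congr 1; omega
  have h4 : ((-1 : ℤ) ^ r) * (-1) ^ r = 1 := by rw [← mul_pow]; simp
  rw [h3]
  linear_combination (-((-1) ^ (e - r) * (a:ℤ) ^ (e - r) * (b:ℤ) ^ r * ((e + k - 1).choose r : ℤ) *
    ((e + k - 1).choose (e - r) : ℤ))) * h4

/-- for odd `e` the coefficients vanish identically. -/
lemma aCoeff_odd (D k e n : ℕ) (he : Odd e) : aCoeff D k e n = 0 := by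
  rw [aCoeff]
  refine Finset.sum_eq_zero fun d _ => ?_
  have h : ∑ p ∈ antidiagonal (n * d.2), sig k d.1 d.2 p.1 * sig k d.1 d.2 p.2 * (ce k e p.1 p.2 : ℂ) =
      - ∑ p ∈ antidiagonal (n * d.2), sig k d.1 d.2 p.1 * sig k d.1 d.2 p.2 * (ce k e p.1 p.2 : ℂ) := by
    conv_lhs => rw [← Finset.Nat.sum_antidiagonal_swap]
    rw [← Finset.sum_neg_distrib]
    refine Finset.sum_congr rfl fun p _ => ?_
    simp only [Prod.fst_swap, Prod.snd_swap]
    rw [ce_symm k e p.2 p.1, he.neg_one_pow]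
    push_cast
    ring
  have h2 : ∑ p ∈ antidiagonal (n * d.2), sig k d.1 d.2 p.1 * sig k d.1 d.2 p.2 * (ce k e p.1 p.2 : ℂ) = 0 := by
    linear_combination (1 / 2 : ℂ) * h
  rw [h2, mul_zero]

lemma ce_zero_left (k e b : ℕ) : ce k e 0 b = (b : ℤ) ^ e * ((e + k - 1).choose e : ℤ) := by
  rw [ce, Finset.sum_range_succ']
  simp

lemma ce_zero_right (k e a : ℕ) (he : Even e) :
    ce k e a 0 = (a : ℤ) ^ e * ((e + k - 1).choose e : ℤ) := by
  rw [ce_symm, ce_zero_left, he.neg_one_pow, one_mul]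

/-- the part of the inner sum with both variables positive -/
noncomputable def rest (k e D₁ D₂ M : ℕ) : ℂ :=
  ∑ p ∈ (antidiagonal M).filter (fun p => p.1 ≠ 0 ∧ p.2 ≠ 0),
    sig k D₁ D₂ p.1 * sig k D₁ D₂ p.2 * (ce k e p.1 p.2 : ℂ)

lemma inner_eq (k e D₁ D₂ M : ℕ) (he : Even e) (hM : M ≠ 0) :
    ∑ p ∈ antidiagonal M, sig k D₁ D₂ p.1 * sig k D₁ D₂ p.2 * (ce k e p.1 p.2 : ℂ) =
      rest k e D₁ D₂ M + 2 * sig k D₁ D₂ 0 * sig k D₁ D₂ M * ((M : ℂ) ^ e * ((e + k - 1).choose e : ℂ)) := by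
  rw [← Finset.sum_filter_add_sum_filter_not (antidiagonal M) (fun p => p.1 ≠ 0 ∧ p.2 ≠ 0), ← rest]
  congr 1
  have h : (antidiagonal M).filter (fun p => ¬ (p.1 ≠ 0 ∧ p.2 ≠ 0)) = {(0, M), (M, 0)} := by
    ext p
    rw [Finset.mem_filter, HasAntidiagonal.mem_antidiagonal, Finset.mem_insert, Finset.mem_singleton,
      Prod.ext_iff, Prod.ext_iff]
    simp only
    constructor
    · rintro ⟨h1, h2⟩
      by_cases h3 : p.1 = 0
      · left; exact ⟨h3, by omega⟩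
      · right
        have : p.2 = 0 := by
          by_contra h4
          exact h2 ⟨h3, h4⟩
        exact ⟨by omega, this⟩
    · rintro (⟨h1, h2⟩ | ⟨h1, h2⟩)
      · exact ⟨by omega, fun h3 => h3.1 h1⟩
      · exact ⟨by omega, fun h3 => h3.2 h2⟩
  rw [h, Finset.sum_pair]
  · simp only
    rw [ce_zero_left, ce_zero_right k e M he]
    push_cast
    ring
  · intro h1
    rw [Prod.ext_iff] at h1
    exact hM h1.2

lemma norm_rest_le (k e D₁ D₂ M : ℕ) (hk : 3 ≤ k) :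
    ‖rest k e D₁ D₂ M‖ ≤
      7 / 4 * (M : ℝ) ^ (2 * k + e - 1) / 2 ^ (k - 2) / √((k + e - 1 : ℕ) : ℝ) := by
  rcases Nat.eq_zero_or_pos M with h0 | h0
  · subst h0
    have : rest k e D₁ D₂ 0 = 0 := by
      rw [rest]
      have : (antidiagonal 0).filter (fun p : ℕ × ℕ => p.1 ≠ 0 ∧ p.2 ≠ 0) = ∅ := by
        ext p
        rw [Finset.mem_filter, HasAntidiagonal.mem_antidiagonal]
        constructor
        · rintro ⟨h1, h2⟩
          omega
        · intro h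
          exact absurd h (Finset.notMem_empty _)
      rw [this, Finset.sum_empty]
    rw [this, norm_zero]
    positivity
  have hterm : ∀ p ∈ (antidiagonal M).filter (fun p => p.1 ≠ 0 ∧ p.2 ≠ 0),
      ‖sig k D₁ D₂ p.1 * sig k D₁ D₂ p.2 * (ce k e p.1 p.2 : ℂ)‖ ≤
      7 / 4 * (M : ℝ) ^ (2 * k + e - 2) / 2 ^ (k - 2) / √((k + e - 1 : ℕ) : ℝ) := by
    intro p hp
    rw [Finset.mem_filter, HasAntidiagonal.mem_antidiagonal] at hp
    rw [norm_mul, norm_mul, Complex.norm_intCast]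
    have h1 := sig_bound k D₁ D₂ p.1 hk hp.2.1
    have h2 := sig_bound k D₁ D₂ p.2 hk hp.2.2
    have h3 := ce_bound k e p.1 p.2 hk (Nat.one_le_iff_ne_zero.mpr hp.2.1) (Nat.one_le_iff_ne_zero.mpr hp.2.2)
    have h4 : (p.1 : ℝ) + p.2 = M := by rw [← hp.1]; push_cast; rfl
    rw [h4] at h3
    calc ‖sig k D₁ D₂ p.1‖ * ‖sig k D₁ D₂ p.2‖ * |(ce k e p.1 p.2 : ℝ)| ≤
        (5 / 3 * (p.1 : ℝ) ^ (k - 1)) * (5 / 3 * (p.2 : ℝ) ^ (k - 1)) * |(ce k e p.1 p.2 : ℝ)| := by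
          gcongr
      _ = 25 / 9 * (((p.1 : ℝ) * p.2) ^ (k - 1) * |(ce k e p.1 p.2 : ℝ)|) := by
          rw [mul_pow]; ring
      _ ≤ 25 / 9 * ((63 / 100) * (M : ℝ) ^ (2 * k + e - 2) / 2 ^ (k - 2) / √((k + e - 1 : ℕ) : ℝ)) := by
          gcongr
      _ = _ := by ring
  have hcard : (((antidiagonal M).filter (fun p : ℕ × ℕ => p.1 ≠ 0 ∧ p.2 ≠ 0)).card : ℝ) ≤ M := by
    have h1 : ((antidiagonal M).filter (fun p : ℕ × ℕ => p.1 ≠ 0 ∧ p.2 ≠ 0)).card ≤ M := by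
      have h2 : ((antidiagonal M).filter (fun p : ℕ × ℕ => p.1 ≠ 0 ∧ p.2 ≠ 0)) ⊆
          (antidiagonal M).erase (0, M) := by
        intro p hp
        rw [Finset.mem_filter] at hp
        rw [Finset.mem_erase]
        refine ⟨?_, hp.1⟩
        rintro rfl
        exact hp.2.1 rfl
      have h3 := Finset.card_le_card h2
      rw [Finset.card_erase_of_mem (by simp), Finset.Nat.card_antidiagonal] at h3
      omega
    exact_mod_cast h1
  rw [rest]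
  refine (norm_sum_le_of_le _ hterm).trans ?_
  rw [Finset.sum_const, nsmul_eq_mul]
  have h5 : (M : ℝ) ^ (2 * k + e - 1) = M * (M : ℝ) ^ (2 * k + e - 2) := by
    rw [← pow_succ']; congr 1; omega
  rw [h5]
  calc (((antidiagonal M).filter (fun p : ℕ × ℕ => p.1 ≠ 0 ∧ p.2 ≠ 0)).card : ℝ) *
        (7 / 4 * (M : ℝ) ^ (2 * k + e - 2) / 2 ^ (k - 2) / √((k + e - 1 : ℕ) : ℝ)) ≤
      M * (7 / 4 * (M : ℝ) ^ (2 * k + e - 2) / 2 ^ (k - 2) / √((k + e - 1 : ℕ) : ℝ)) := by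
        exact mul_le_mul_of_nonneg_right hcard (by positivity)
    _ = _ := by ring

/-- the remainder -/
noncomputable def Rem (D k e n : ℕ) : ℂ :=
  ∑ d ∈ D.divisorsAntidiagonal, ((jacobiSym (-1) d.2 : ℤ) : ℂ) * ((d.2 : ℂ) ^ e)⁻¹ *
    rest k e d.1 d.2 (n * d.2)

/-- the constant of the main term -/
noncomputable def Amain (D k e : ℕ) : ℂ := Lval D (1 - k) * ((e + k - 1).choose e : ℂ)

lemma aCoeff_even (D k e n : ℕ) (hD : Odd D) (hk : 3 ≤ k) (he : Even e)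
    (hpar : jacobiSym (-1) D = (-1) ^ k) (hn : n ≠ 0) :
    aCoeff D k e n = Amain D k e * (n : ℂ) ^ e * sig k D 1 n + Rem D k e n := by
  have hD0 : D ≠ 0 := by rintro rfl; exact absurd hD (by decide)
  rw [aCoeff, Rem]
  have h1 : ∀ d ∈ D.divisorsAntidiagonal, ((jacobiSym (-1) d.2 : ℤ) : ℂ) * ((d.2 : ℂ) ^ e)⁻¹ *
      ∑ p ∈ antidiagonal (n * d.2), sig k d.1 d.2 p.1 * sig k d.1 d.2 p.2 * (ce k e p.1 p.2 : ℂ) =
      (if d = (D, 1) then Amain D k e * (n : ℂ) ^ e * sig k D 1 n else 0) +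
      ((jacobiSym (-1) d.2 : ℤ) : ℂ) * ((d.2 : ℂ) ^ e)⁻¹ * rest k e d.1 d.2 (n * d.2) := by
    intro d hd
    rw [Nat.mem_divisorsAntidiagonal] at hd
    have hd1 : d.1 ≠ 0 := by rintro h; rw [h, zero_mul] at hd; exact hd.2 hd.1.symm
    have hd2 : d.2 ≠ 0 := by rintro h; rw [h, mul_zero] at hd; exact hd.2 hd.1.symm
    have : NeZero d.1 := ⟨hd1⟩
    have : NeZero d.2 := ⟨hd2⟩
    rw [inner_eq k e d.1 d.2 (n * d.2) he (Nat.mul_ne_zero hn hd2)]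
    split_ifs with h
    · subst h
      have h2 : sig k D 1 0 = Lval D (1 - k) / 2 := by
        rw [sig, if_pos rfl, Lval_one_zero]
        ring
      simp only [mul_one, h2, jacobiSym.one_right, Int.cast_one, Nat.cast_one, one_pow, inv_one,
        Amain]
      ring
    · have h3 : 1 < d.2 := by
        rcases Nat.lt_or_ge 1 d.2 with h4 | h4
        · exact h4
        · exfalso
          apply h
          have h5 : d.2 = 1 := by omega
          have h6 := hd.1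
          rw [h5, mul_one] at h6
          exact Prod.ext h6 h5
      have h4 : sig k d.1 d.2 0 = 0 := by
        rw [sig, if_pos rfl, Lval_zero k d.1 d.2 hk h3 (by rw [hd.1]; exact hpar), neg_zero]
      rw [h4]
      ring
  rw [Finset.sum_congr rfl h1, Finset.sum_add_distrib]
  congr 1
  rw [Finset.sum_ite_eq', if_pos]
  rw [Nat.mem_divisorsAntidiagonal]
  exact ⟨mul_one D, hD0⟩

lemma norm_Rem_le (D k e n : ℕ) (hD : D ≠ 0) (hk : 3 ≤ k) :
    ‖Rem D k e n‖ ≤ 91 / 48 * (n : ℝ) ^ (2 * k + e - 1) * (D : ℝ) ^ (2 * k - 1) / 2 ^ (k - 2) /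
      √((k + e - 1 : ℕ) : ℝ) := by
  rw [Rem]
  have h1 : ∀ d ∈ D.divisorsAntidiagonal,
      ‖((jacobiSym (-1) d.2 : ℤ) : ℂ) * ((d.2 : ℂ) ^ e)⁻¹ * rest k e d.1 d.2 (n * d.2)‖ ≤
      (7 / 4 * (n : ℝ) ^ (2 * k + e - 1) / 2 ^ (k - 2) / √((k + e - 1 : ℕ) : ℝ)) * (d.2 : ℝ) ^ (2 * k - 1) := by
    intro d hd
    rw [Nat.mem_divisorsAntidiagonal] at hd
    have hd2 : d.2 ≠ 0 := by rintro h; rw [h, mul_zero] at hd; exact hd.2 hd.1.symm
    have hd3 : (0:ℝ) < (d.2 : ℝ) := by exact_mod_cast Nat.pos_of_ne_zero hd2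
    rw [norm_mul, norm_mul, norm_inv, norm_pow, Complex.norm_natCast]
    have h2 := norm_rest_le k e d.1 d.2 (n * d.2) hk
    have h3 := norm_jacobi_le (-1) d.2
    calc ‖((jacobiSym (-1) d.2 : ℤ) : ℂ)‖ * ((d.2 : ℝ) ^ e)⁻¹ * ‖rest k e d.1 d.2 (n * d.2)‖ ≤
        1 * ((d.2 : ℝ) ^ e)⁻¹ *
        (7 / 4 * ((n * d.2 : ℕ) : ℝ) ^ (2 * k + e - 1) / 2 ^ (k - 2) / √((k + e - 1 : ℕ) : ℝ)) := by
          gcongr
      _ = _ := by
          have h4 : 2 * k + e - 1 = (2 * k - 1) + e := by omega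
          have h5 : ((n * d.2 : ℕ) : ℝ) ^ (2 * k + e - 1) =
              (n : ℝ) ^ (2 * k + e - 1) * ((d.2 : ℝ) ^ (2 * k - 1) * (d.2 : ℝ) ^ e) := by
            rw [← pow_add, ← h4]; push_cast; rw [mul_pow]
          rw [h5]
          field_simp
  refine (norm_sum_le_of_le _ h1).trans ?_
  rw [← Finset.mul_sum]
  have h2 := sum_divisors_pow D (2 * k - 1) hD (by omega)
  calc (7 / 4 * (n : ℝ) ^ (2 * k + e - 1) / 2 ^ (k - 2) / √((k + e - 1 : ℕ) : ℝ)) *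
        ∑ d ∈ D.divisorsAntidiagonal, (d.2 : ℝ) ^ (2 * k - 1) ≤
      (7 / 4 * (n : ℝ) ^ (2 * k + e - 1) / 2 ^ (k - 2) / √((k + e - 1 : ℕ) : ℝ)) *
        (13 / 12 * (D : ℝ) ^ (2 * k - 1)) := mul_le_mul_of_nonneg_left h2 (by positivity)
    _ = _ := by ring

lemma norm_Amain_ge (D k e : ℕ) [NeZero D] (hD : Odd D) (hsq : Squarefree D) (hk : 3 ≤ k)
    (hpar : jacobiSym (-1) D = (-1) ^ k) :
    3 / 2 * ((D : ℝ) ^ (k - 1) * √(D : ℝ)) * ((k + e - 1 : ℕ) : ℝ) ^ (k - 1) / 3 ^ (k - 1) / (2 * π) ^ k ≤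
      ‖Amain D k e‖ := by
  rw [Amain, norm_mul, Lval_one_sub_norm D k hD hsq (by omega) hpar, Complex.norm_natCast]
  have h1 := Lval_ge D k hk
  have h2 : e + k - 1 = k + e - 1 := by omega
  have h3 := desc_bound (k - 1) (k + e - 1) (by omega)
  have h4 : ((k + e - 1).descFactorial (k - 1) : ℝ) = ((k - 1).factorial : ℝ) * ((e + k - 1).choose e : ℝ) := by
    rw [Nat.descFactorial_eq_factorial_mul_choose, h2]
    have : (k + e - 1).choose (k - 1) = (k + e - 1).choose e := by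
      rw [← Nat.choose_symm (by omega : e ≤ k + e - 1)]
      congr 1
      omega
    rw [this]
    push_cast
    rfl
  rw [h4] at h3
  have h5 : ((k + e - 1 : ℕ) : ℝ) ^ (k - 1) / 3 ^ (k - 1) ≤
      ((k - 1).factorial : ℝ) * ((e + k - 1).choose e : ℝ) := by
    rw [div_le_iff₀ (by positivity)]
    linarith
  calc 3 / 2 * ((D : ℝ) ^ (k - 1) * √(D : ℝ)) * ((k + e - 1 : ℕ) : ℝ) ^ (k - 1) / 3 ^ (k - 1) / (2 * π) ^ k
      = (D : ℝ) ^ (k - 1) / (2 * π) ^ k * (2 * √(D : ℝ) * (3 / 4)) *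
        (((k + e - 1 : ℕ) : ℝ) ^ (k - 1) / 3 ^ (k - 1)) := by ring
    _ ≤ (D : ℝ) ^ (k - 1) / (2 * π) ^ k * (2 * √(D : ℝ) * ‖Lval D k‖) *
        (((k - 1).factorial : ℝ) * ((e + k - 1).choose e : ℝ)) := by
        gcongr
    _ = _ := by ring

end MP836e4b
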