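import Pool.Agent.Work.MP_836e4b_nt.Decomp

open Finset
open scoped Real

namespace MP836e4b

lemma key_num (m n : ℕ) (D N : ℝ) (hm : 2 ≤ m) (hn : 1 ≤ n) (hn4 : n ≤ 4) (hD : 0 < D)
    (hN : 100 * D ≤ N) :
    (91 * 4 * π / 480) * n * (3 * π * n * D / N) ^ m ≤ 3 / 128 * (n : ℝ) ^ 3 := by
  have hN0 : 0 < N := by linarith
  have hn1 : (1:ℝ) ≤ n := by exact_mod_cast hn
  have hn2 : (n : ℝ) ≤ 4 := by exact_mod_cast hn4
  have hpi := Real.pi_pos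
  have hpi2 := Real.pi_lt_d2
  have hq0 : 0 ≤ 3 * π * n * D / N := by positivity
  have hq1 : 3 * π * n * D / N ≤ 3 * π * n / 100 := by
    rw [div_le_div_iff₀ hN0 (by norm_num)]
    have : 3 * π * n * (100 * D) ≤ 3 * π * n * N := mul_le_mul_of_nonneg_left hN (by positivity)
    linarith
  have hq2 : 3 * π * n / 100 ≤ 1 := by
    rw [div_le_one (by norm_num)]
    nlinarith
  have hq3 : (3 * π * n * D / N) ^ m ≤ (3 * π * n / 100) ^ 2 := by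
    calc (3 * π * n * D / N) ^ m ≤ (3 * π * n * D / N) ^ 2 :=
          pow_le_pow_of_le_one hq0 (hq1.trans hq2) hm
      _ ≤ _ := pow_le_pow_left₀ hq0 hq1 2
  have h3 : π ^ 3 ≤ 3.15 ^ 3 := pow_le_pow_left₀ hpi.le hpi2.le 3
  calc (91 * 4 * π / 480) * n * (3 * π * n * D / N) ^ m ≤
      (91 * 4 * π / 480) * n * (3 * π * n / 100) ^ 2 := by gcongr
    _ = (91 * 4 * 9 / 4800000) * π ^ 3 * (n : ℝ) ^ 3 := by ring
    _ ≤ (91 * 4 * 9 / 4800000) * 3.15 ^ 3 * (n : ℝ) ^ 3 := by gcongr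
    _ ≤ _ := by
        have : (0:ℝ) ≤ (n : ℝ) ^ 3 := by positivity
        norm_num
        nlinarith

lemma Rem_small (D k e n : ℕ) [NeZero D] (hD : Odd D) (hsq : Squarefree D) (hk : 3 ≤ k)
    (hpar : jacobiSym (-1) D = (-1) ^ k) (hbig : 100 * D < k + e) (hn : 1 ≤ n) (hn4 : n ≤ 4) :
    ‖Rem D k e n‖ ≤ (n : ℝ) ^ 3 / 64 * (‖Amain D k e‖ * (n : ℝ) ^ (k + e - 1)) := by
  have hD0 : (0:ℝ) < D := by exact_mod_cast Nat.pos_of_ne_zero (NeZero.ne D)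
  set N : ℝ := ((k + e - 1 : ℕ) : ℝ) with hN
  have hNb : 100 * (D : ℝ) ≤ N := by
    have : 100 * D ≤ k + e - 1 := by omega
    rw [hN]
    exact_mod_cast this
  have hN0 : 0 < N := by linarith
  have h1 := norm_Rem_le D k e n (NeZero.ne D) hk
  have h2 := norm_Amain_ge D k e hD hsq hk hpar
  rw [← hN] at h1 h2
  obtain ⟨m, rfl⟩ : ∃ m, k = m + 1 := ⟨k - 1, by omega⟩
  have hm : 2 ≤ m := by omega
  have hn1 : (1:ℝ) ≤ n := by exact_mod_cast hn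
  have hkey := key_num m n D N hm hn hn4 hD0 hNb
  refine h1.trans ?_
  have h3 : (n : ℝ) ^ 3 / 64 * (3 / 2 * ((D : ℝ) ^ (m + 1 - 1) * √(D : ℝ)) * N ^ (m + 1 - 1) /
      3 ^ (m + 1 - 1) / (2 * π) ^ (m + 1) * (n : ℝ) ^ (m + 1 + e - 1)) ≤
      (n : ℝ) ^ 3 / 64 * (‖Amain D (m + 1) e‖ * (n : ℝ) ^ (m + 1 + e - 1)) := by
    gcongr
  refine le_trans ?_ h3
  simp only [Nat.add_sub_cancel]
  -- replace `1/√N`
  have hsqrt : 10 * √(D : ℝ) ≤ √N := by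
    apply Real.le_sqrt_of_sq_le
    rw [mul_pow, Real.sq_sqrt hD0.le]
    linarith
  have hsD : 0 < √(D : ℝ) := Real.sqrt_pos.mpr hD0
  have hsD2 : √(D : ℝ) * √(D : ℝ) = D := Real.mul_self_sqrt hD0.le
  have e1 : (n : ℝ) ^ (2 * (m + 1) + e - 1) = (n : ℝ) ^ (m + 1) * (n : ℝ) ^ (m + 1 + e - 1) := by
    rw [← pow_add]; congr 1; omega
  have e2 : (D : ℝ) ^ (2 * (m + 1) - 1) = (D : ℝ) ^ m * (D : ℝ) ^ m * D := by
    rw [← pow_add, ← pow_succ]; congr 1; omega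
  have e3 : (2 : ℝ) ^ (m + 1 - 2) * 2 = 2 ^ m := by
    rw [← pow_succ]; congr 1; omega
  have hpi := Real.pi_pos
  have step1 : 91 / 48 * (n : ℝ) ^ (2 * (m + 1) + e - 1) * (D : ℝ) ^ (2 * (m + 1) - 1) / 2 ^ (m + 1 - 2) / √N
      ≤ 91 / 48 * (n : ℝ) ^ (2 * (m + 1) + e - 1) * (D : ℝ) ^ (2 * (m + 1) - 1) / 2 ^ (m + 1 - 2) /
        (10 * √(D : ℝ)) := by
    gcongr
  refine step1.trans ?_
  have step2 : 91 / 48 * (n : ℝ) ^ (2 * (m + 1) + e - 1) * (D : ℝ) ^ (2 * (m + 1) - 1) / 2 ^ (m + 1 - 2) /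
        (10 * √(D : ℝ)) = ((91 * 4 * π / 480) * n * (3 * π * n * D / N) ^ m) *
        ((D : ℝ) ^ m * √(D : ℝ) * N ^ m / 3 ^ m / (2 * π) ^ (m + 1) * (n : ℝ) ^ (m + 1 + e - 1)) := by
    rw [e1, e2]
    have e4 : (3 * π * n * D / N) ^ m = 3 ^ m * π ^ m * (n : ℝ) ^ m * (D : ℝ) ^ m / N ^ m := by
      rw [div_pow, mul_pow, mul_pow, mul_pow]
    have e5 : (2 * π) ^ (m + 1) = 2 ^ (m + 1 - 2) * 4 * (π ^ m * π) := by
      rw [mul_pow, pow_succ, pow_succ, ← e3]; ring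
    have e6 : (D : ℝ) ^ m * (D : ℝ) ^ m * D = (D : ℝ) ^ m * (D : ℝ) ^ m * (√(D : ℝ) * √(D : ℝ)) := by rw [hsD2]
    rw [e4, e5, e6]
    field_simp
    ring
  rw [step2]
  calc ((91 * 4 * π / 480) * n * (3 * π * n * D / N) ^ m) *
        ((D : ℝ) ^ m * √(D : ℝ) * N ^ m / 3 ^ m / (2 * π) ^ (m + 1) * (n : ℝ) ^ (m + 1 + e - 1)) ≤
      (3 / 128 * (n : ℝ) ^ 3) *
        ((D : ℝ) ^ m * √(D : ℝ) * N ^ m / 3 ^ m / (2 * π) ^ (m + 1) * (n : ℝ) ^ (m + 1 + e - 1)) := by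
        gcongr
    _ = _ := by ring

lemma sig_one (k D : ℕ) : sig k D 1 1 = 1 := by
  rw [sig, if_neg one_ne_zero]
  have : Nat.divisorsAntidiagonal 1 = {(1, 1)} := by decide
  rw [this, Finset.sum_singleton]
  simp

lemma sig_two (k D : ℕ) : sig k D 1 2 = 1 + ((jacobiSym 2 D : ℤ) : ℂ) * 2 ^ (k - 1) := by
  rw [sig, if_neg two_ne_zero]
  have : Nat.divisorsAntidiagonal 2 = {(1, 2), (2, 1)} := by decide
  rw [this, Finset.sum_pair (by decide)]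
  simp

lemma sig_four (k D : ℕ) (hD : Odd D) : sig k D 1 4 = 1 + ((jacobiSym 2 D : ℤ) : ℂ) * 2 ^ (k - 1) +
    (2 ^ (k - 1)) ^ 2 := by
  rw [sig, if_neg (by norm_num)]
  have : Nat.divisorsAntidiagonal 4 = {(1, 4), (2, 2), (4, 1)} := by decide
  rw [this, Finset.sum_insert (by decide), Finset.sum_pair (by decide)]
  have h4 : jacobiSym 4 D = 1 := jacobiSym.at_four hD
  have h5 : ((4 : ℕ) : ℂ) ^ (k - 1) = (2 ^ (k - 1)) ^ 2 := by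
    rw [← pow_mul, mul_comm, pow_mul]
    norm_num
  simp only [Nat.cast_one, Nat.cast_ofNat, jacobiSym.one_left, jacobiSym.one_right, Int.cast_one,
    one_pow, mul_one, h4, one_mul]
  rw [← h5]
  push_cast
  ring

/-- the final contradiction -/
lemma final_contra (A u v w : ℂ) (X y c : ℝ) (hA : A ≠ 0) (hX : 4 ≤ X) (hy : 0 < y)
    (hc : c = 1 ∨ c = -1) (hu : ‖u‖ ≤ 1 / 64) (hv : ‖v‖ ≤ 8 / 64) (hw : ‖w‖ ≤ 1)
    (h : (A * (1 + u)) * (A * y ^ 2 * (1 + c * X + X ^ 2) + A * (y * X) ^ 2 * w) +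
      2 * (y * X) ^ 2 * (A * (1 + u)) ^ 2 = (A * y * (1 + c * X) + A * (y * X) * v) ^ 2) : False := by
  have hX0 : (X : ℂ) ≠ 0 := by
    have : X ≠ 0 := by linarith
    exact_mod_cast this
  have hy0 : (y : ℂ) ≠ 0 := by exact_mod_cast hy.ne'
  set t : ℝ := X⁻¹ with ht
  have htX : (t : ℂ) * X = 1 := by
    rw [ht]; push_cast; exact inv_mul_cancel₀ hX0
  have ht0 : 0 < t := by rw [ht]; apply inv_pos.mpr; linarith
  have ht1 : t ≤ 1 / 4 := by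
    rw [ht, inv_le_comm₀ (by linarith) (by norm_num)]
    linarith
  have hc2 : (c : ℂ) ^ 2 = 1 := by rcases hc with h | h <;> rw [h] <;> norm_num
  have hAyX : (A * y * X) ^ 2 ≠ 0 := by positivity
  have h1 : (1 + u) * (1 + c * t + t ^ 2 + w) + 2 * (1 + u) ^ 2 = (c + t + v) ^ 2 := by
    apply mul_left_cancel₀ hAyX
    have e1 : (1 : ℂ) + c * X + X ^ 2 = X ^ 2 * (1 + c * t + t ^ 2) := by
      linear_combination (- c * X - (t * X + 1)) * htX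
    have e2 : (1 : ℂ) + c * X = X * (c + t) := by linear_combination (-1 : ℂ) * htX
    rw [e1, e2] at h
    linear_combination h
  have h2 : (2 - c * t : ℂ) = -(w + u * (1 + c * t + t ^ 2) + u * w + 4 * u + 2 * u ^ 2 -
      2 * (c + t) * v - v ^ 2) := by
    linear_combination h1 + hc2
  have hcn : ‖(c : ℂ)‖ = 1 := by
    rw [Complex.norm_real]
    rcases hc with h | h <;> rw [h] <;> norm_num
  have htn : ‖(t : ℂ)‖ = t := by rw [Complex.norm_real, Real.norm_eq_abs, abs_of_pos ht0]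
  have h3 : 7 / 4 ≤ ‖(2 - c * t : ℂ)‖ := by
    have : (2 - c * t : ℂ) = ((2 - c * t : ℝ) : ℂ) := by push_cast; ring
    rw [this, Complex.norm_real, Real.norm_eq_abs]
    apply le_trans _ (le_abs_self _)
    rcases hc with h | h <;> rw [h] <;> linarith
  have h4 : ‖(1 + c * t + t ^ 2 : ℂ)‖ ≤ 21 / 16 := by
    calc ‖(1 + c * t + t ^ 2 : ℂ)‖ ≤ ‖(1 : ℂ)‖ + ‖(c * t : ℂ)‖ + ‖(t ^ 2 : ℂ)‖ := norm_add₃_le
      _ = 1 + t + t ^ 2 := by rw [norm_one, norm_mul, norm_pow, hcn, htn, one_mul]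
      _ ≤ 21 / 16 := by nlinarith
  have h5 : ‖(c + t : ℂ)‖ ≤ 5 / 4 := by
    calc ‖(c + t : ℂ)‖ ≤ ‖(c : ℂ)‖ + ‖(t : ℂ)‖ := norm_add_le _ _
      _ ≤ 5 / 4 := by rw [hcn, htn]; linarith
  have h6 : ‖w + u * (1 + c * t + t ^ 2) + u * w + 4 * u + 2 * u ^ 2 - 2 * (c + t) * v - v ^ 2‖ ≤
      ‖w‖ + ‖u‖ * ‖(1 + c * t + t ^ 2 : ℂ)‖ + ‖u‖ * ‖w‖ + 4 * ‖u‖ + 2 * ‖u‖ ^ 2 +
      2 * ‖(c + t : ℂ)‖ * ‖v‖ + ‖v‖ ^ 2 := by
    calc ‖w + u * (1 + c * t + t ^ 2) + u * w + 4 * u + 2 * u ^ 2 - 2 * (c + t) * v - v ^ 2‖ ≤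
        ‖w + u * (1 + c * t + t ^ 2) + u * w + 4 * u + 2 * u ^ 2 - 2 * (c + t) * v‖ + ‖v ^ 2‖ :=
          norm_sub_le _ _
      _ ≤ ‖w + u * (1 + c * t + t ^ 2) + u * w + 4 * u + 2 * u ^ 2‖ + ‖2 * (c + t) * v‖ + ‖v ^ 2‖ := by
          gcongr; exact norm_sub_le _ _
      _ ≤ ‖w + u * (1 + c * t + t ^ 2) + u * w + 4 * u‖ + ‖2 * u ^ 2‖ + ‖2 * (c + t) * v‖ + ‖v ^ 2‖ := by
          gcongr; exact norm_add_le _ _
      _ ≤ ‖w + u * (1 + c * t + t ^ 2) + u * w‖ + ‖4 * u‖ + ‖2 * u ^ 2‖ + ‖2 * (c + t) * v‖ + ‖v ^ 2‖ := by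
          gcongr; exact norm_add_le _ _
      _ ≤ ‖w‖ + ‖u * (1 + c * t + t ^ 2)‖ + ‖u * w‖ + ‖4 * u‖ + ‖2 * u ^ 2‖ + ‖2 * (c + t) * v‖ + ‖v ^ 2‖ := by
          gcongr; exact norm_add₃_le
      _ = _ := by simp only [norm_mul, norm_pow, Complex.norm_ofNat]
  have h7 : ‖(2 - c * t : ℂ)‖ = ‖w + u * (1 + c * t + t ^ 2) + u * w + 4 * u + 2 * u ^ 2 -
      2 * (c + t) * v - v ^ 2‖ := by rw [h2, norm_neg]
  rw [← h7] at h6
  have n1 := norm_nonneg u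
  have n2 := norm_nonneg v
  have n3 := norm_nonneg w
  have n4 := norm_nonneg (1 + c * t + t ^ 2 : ℂ)
  have n5 := norm_nonneg (c + t : ℂ)
  have b1 : ‖u‖ * ‖(1 + c * t + t ^ 2 : ℂ)‖ ≤ 1 / 64 * (21 / 16) := by gcongr
  have b2 : ‖u‖ * ‖w‖ ≤ 1 / 64 * 1 := by gcongr
  have b3 : ‖u‖ ^ 2 ≤ (1 / 64) ^ 2 := by gcongr
  have b4 : ‖(c + t : ℂ)‖ * ‖v‖ ≤ 5 / 4 * (8 / 64) := by gcongr
  have b5 : ‖v‖ ^ 2 ≤ (8 / 64) ^ 2 := by gcongr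
  nlinarith

end MP836e4b
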