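import Pool.Agent.Work.MP_836e4b_nt.Final

open Finset
open scoped Real

namespace MP836e4b

lemma hecke_two_one (K : ℕ) (a : ℕ → ℂ) : hecke K 2 a 1 = a 2 := by
  rw [hecke]
  have : Nat.gcd 2 1 = 1 := by norm_num
  rw [this, Nat.divisors_one, Finset.sum_singleton]
  simp

lemma hecke_two_two (K : ℕ) (a : ℕ → ℂ) : hecke K 2 a 2 = a 4 + 2 ^ (K - 1) * a 1 := by
  rw [hecke]
  have h1 : Nat.gcd 2 2 = 2 := by norm_num
  have h2 : Nat.divisors 2 = {1, 2} := by decide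
  rw [h1, h2, Finset.sum_pair (by decide)]
  simp

lemma Rem_decomp (D k e n : ℕ) [NeZero D] (hD : Odd D) (hsq : Squarefree D) (hk : 3 ≤ k)
    (hpar : jacobiSym (-1) D = (-1) ^ k) (hbig : 100 * D < k + e) (hn : 1 ≤ n) (hn4 : n ≤ 4)
    (hA : Amain D k e ≠ 0) :
    ∃ u : ℂ, ‖u‖ ≤ (n : ℝ) ^ 3 / 64 ∧ Rem D k e n = Amain D k e * (n : ℂ) ^ (k + e - 1) * u := by
  have hn0 : (0:ℝ) < n := by exact_mod_cast hn
  have hnc : (n : ℂ) ≠ 0 := by exact_mod_cast (by omega : n ≠ 0)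
  have h1 : Amain D k e * (n : ℂ) ^ (k + e - 1) ≠ 0 := mul_ne_zero hA (pow_ne_zero _ hnc)
  refine ⟨Rem D k e n / (Amain D k e * (n : ℂ) ^ (k + e - 1)), ?_, ?_⟩
  · rw [norm_div, div_le_iff₀ (norm_pos_iff.mpr h1), norm_mul, norm_pow, Complex.norm_natCast]
    exact Rem_small D k e n hD hsq hk hpar hbig hn hn4
  · rw [mul_div_cancel₀ _ h1]

lemma Amain_ne_zero (D k e : ℕ) [NeZero D] (hD : Odd D) (hsq : Squarefree D) (hk : 3 ≤ k)
    (hpar : jacobiSym (-1) D = (-1) ^ k) : Amain D k e ≠ 0 := by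
  have h := norm_Amain_ge D k e hD hsq hk hpar
  have hD0 : (0:ℝ) < D := by exact_mod_cast Nat.pos_of_ne_zero (NeZero.ne D)
  have hN0 : (0:ℝ) < ((k + e - 1 : ℕ) : ℝ) := by
    have : 0 < k + e - 1 := by omega
    exact_mod_cast this
  have hs : 0 < √(D : ℝ) := Real.sqrt_pos.mpr hD0
  have hpi := Real.pi_pos
  rw [← norm_pos_iff]
  refine lt_of_lt_of_le ?_ h
  positivity

/-- The main theorem for even `e`. -/
theorem even_case (D k e : ℕ) (hD : Odd D) (hsq : Squarefree D) (hk : 3 ≤ k) (he : Even e)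
    (hpar : jacobiSym (-1) D = (-1) ^ k) (hbig : 100 * D < k + e) :
    aCoeff D k e 1 ≠ 0 ∧
      ¬ ∃ l : ℂ, ∀ n, 1 ≤ n → hecke (2 * k + 2 * e) 2 (aCoeff D k e) n = l * aCoeff D k e n := by
  have hD0 : D ≠ 0 := by rintro rfl; exact absurd hD (by decide)
  have : NeZero D := ⟨hD0⟩
  have hA := Amain_ne_zero D k e hD hsq hk hpar
  set A := Amain D k e with hAdef
  obtain ⟨u, hu, hu'⟩ := Rem_decomp D k e 1 hD hsq hk hpar hbig (by norm_num) (by norm_num) hA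
  obtain ⟨v, hv, hv'⟩ := Rem_decomp D k e 2 hD hsq hk hpar hbig (by norm_num) (by norm_num) hA
  obtain ⟨w, hw, hw'⟩ := Rem_decomp D k e 4 hD hsq hk hpar hbig (by norm_num) (by norm_num) hA
  rw [← hAdef] at hu' hv' hw'
  norm_num at hu hv hw
  have a1 : aCoeff D k e 1 = A * (1 + u) := by
    rw [aCoeff_even D k e 1 hD hk he hpar one_ne_zero, hu', sig_one, ← hAdef]
    push_cast
    rw [one_pow, one_pow]
    ring
  obtain ⟨c, hc, hcj⟩ : ∃ c : ℝ, (c = 1 ∨ c = -1) ∧ ((jacobiSym 2 D : ℤ) : ℂ) = (c : ℂ) := by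
    have hcop : Int.gcd 2 D = 1 := by
      have : Nat.Coprime 2 D := Nat.coprime_two_left.mpr hD
      simpa [Int.gcd, Nat.Coprime] using this
    rcases jacobiSym.eq_one_or_neg_one hcop with h | h
    · exact ⟨1, Or.inl rfl, by rw [h]; simp⟩
    · exact ⟨-1, Or.inr rfl, by rw [h]; simp⟩
  have hNe : k + e - 1 = e + (k - 1) := by omega
  have a2 : aCoeff D k e 2 = A * ((2 ^ e : ℝ) : ℂ) * (1 + c * ((2 ^ (k - 1) : ℝ) : ℂ)) +
      A * (((2 ^ e : ℝ) : ℂ) * ((2 ^ (k - 1) : ℝ) : ℂ)) * v := by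
    rw [aCoeff_even D k e 2 hD hk he hpar two_ne_zero, hv', sig_two, ← hAdef, hcj, hNe]
    push_cast
    rw [pow_add]
  have a4 : aCoeff D k e 4 = A * ((2 ^ e : ℝ) : ℂ) ^ 2 * (1 + c * ((2 ^ (k - 1) : ℝ) : ℂ) +
      ((2 ^ (k - 1) : ℝ) : ℂ) ^ 2) +
      A * (((2 ^ e : ℝ) : ℂ) * ((2 ^ (k - 1) : ℝ) : ℂ)) ^ 2 * w := by
    rw [aCoeff_even D k e 4 hD hk he hpar (by norm_num), hw', sig_four k D hD, ← hAdef, hcj, hNe]
    push_cast
    have e1 : (4 : ℂ) ^ e = (2 ^ e) ^ 2 := by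
      rw [← pow_mul, mul_comm, pow_mul]; norm_num
    have e2 : (4 : ℂ) ^ (e + (k - 1)) = (2 ^ e * 2 ^ (k - 1)) ^ 2 := by
      rw [← pow_add, ← pow_mul, mul_comm, pow_mul]; norm_num
    rw [e1, e2]
  constructor
  · rw [a1]
    apply mul_ne_zero hA
    intro h
    have h2 : u = -1 := by linear_combination h
    rw [h2, norm_neg, norm_one] at hu
    norm_num at hu
  · rintro ⟨l, hl⟩
    have h1 := hl 1 (by norm_num)
    have h2 := hl 2 (by norm_num)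
    rw [hecke_two_one] at h1
    rw [hecke_two_two] at h2
    have h3 : aCoeff D k e 1 * aCoeff D k e 4 + 2 ^ (2 * k + 2 * e - 1) * aCoeff D k e 1 ^ 2 =
        aCoeff D k e 2 ^ 2 := by
      linear_combination aCoeff D k e 1 * h2 - aCoeff D k e 2 * h1
    have e3 : (2 : ℂ) ^ (2 * k + 2 * e - 1) =
        2 * (((2 ^ e : ℝ) : ℂ) * ((2 ^ (k - 1) : ℝ) : ℂ)) ^ 2 := by
      push_cast
      rw [← pow_add, ← pow_mul, ← pow_succ']
      congr 1
      omega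
    rw [e3, a1, a2, a4] at h3
    refine final_contra A u v w (2 ^ (k - 1)) (2 ^ e) c hA ?_ (by positivity) hc hu ?_ hw ?_
    · calc (4:ℝ) = 2 ^ 2 := by norm_num
        _ ≤ 2 ^ (k - 1) := pow_le_pow_right₀ (by norm_num) (by omega)
    · linarith
    · exact h3

end MP836e4b
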